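import Mathlib

/-!
Kronecker's theorem for the logarithms of the primes: `p ^ (i t)` is close to a given point of the unit
circle for all `p ≤ w` at the same time.
-/

set_option autoImplicit false

namespace Pool.Agent.Run7.h348.EF

open Finset Filter Topology

/-- the mean square of a bounded exponential polynomial -/
lemma mean_sq_exp {ι : Type} [DecidableEq ι] (S : Finset ι) (c ω : ι → ℂ) (hω : ∀ i, ‖ω i‖ = 1)
    (hinj : ∀ i ∈ S, ∀ j ∈ S, i ≠ j → ω i ≠ ω j) (B : ℝ) (hB : ∀ k : ℕ, ‖∑ i ∈ S, c i * ω i ^ k‖ ≤ B) :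
    ∑ i ∈ S, ‖c i‖ ^ 2 ≤ B ^ 2 := by
  classical
  obtain ⟨C, hC⟩ : ∃ C : ℝ, C = ∑ i ∈ S, ∑ j ∈ S, if i = j then 0 else
      ‖c i‖ * ‖c j‖ * (2 / ‖ω i * (starRingEnd ℂ) (ω j) - 1‖) := ⟨_, rfl⟩
  have hC0 : 0 ≤ C := by
    rw [hC]
    refine sum_nonneg fun i _ => sum_nonneg fun j _ => ?_
    split_ifs
    · exact le_rfl
    · positivity
  have hunit : ∀ i, ω i * (starRingEnd ℂ) (ω i) = 1 := by
    intro i
    rw [Complex.mul_conj, Complex.normSq_eq_norm_sq, hω]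
    norm_num
  have key : ∀ K : ℕ, (K : ℝ) * ∑ i ∈ S, ‖c i‖ ^ 2 ≤ K * B ^ 2 + C := by
    intro K
    have h1 : (∑ k ∈ range K, ((‖∑ i ∈ S, c i * ω i ^ k‖ ^ 2 : ℝ) : ℂ)) =
        ∑ i ∈ S, ∑ j ∈ S, c i * (starRingEnd ℂ) (c j) *
          ∑ k ∈ range K, (ω i * (starRingEnd ℂ) (ω j)) ^ k := by
      have e1 : ∀ k : ℕ, ((‖∑ i ∈ S, c i * ω i ^ k‖ ^ 2 : ℝ) : ℂ) =
          ∑ i ∈ S, ∑ j ∈ S, c i * (starRingEnd ℂ) (c j) * (ω i * (starRingEnd ℂ) (ω j)) ^ k := by
        intro k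
        rw [Complex.ofReal_pow, ← Complex.mul_conj', map_sum, sum_mul_sum]
        refine sum_congr rfl fun i _ => sum_congr rfl fun j _ => ?_
        rw [map_mul, map_pow, mul_pow]
        ring
      rw [sum_congr rfl fun k _ => e1 k, sum_comm]
      refine sum_congr rfl fun i _ => ?_
      rw [sum_comm]
      refine sum_congr rfl fun j _ => ?_
      rw [mul_sum]
    have h2 : (∑ k ∈ range K, ((‖∑ i ∈ S, c i * ω i ^ k‖ ^ 2 : ℝ) : ℂ)) -
        ((K * ∑ i ∈ S, ‖c i‖ ^ 2 : ℝ) : ℂ) = ∑ i ∈ S, ∑ j ∈ S, if i = j then 0 else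
          c i * (starRingEnd ℂ) (c j) * ∑ k ∈ range K, (ω i * (starRingEnd ℂ) (ω j)) ^ k := by
      rw [h1]
      have e1 : ((K * ∑ i ∈ S, ‖c i‖ ^ 2 : ℝ) : ℂ) = ∑ i ∈ S, (K : ℂ) * (c i * (starRingEnd ℂ) (c i)) := by
        push_cast
        rw [mul_sum]
        refine sum_congr rfl fun i _ => ?_
        rw [Complex.mul_conj']
      rw [e1, ← sum_sub_distrib]
      refine sum_congr rfl fun i hi => ?_
      rw [← add_sum_erase S _ hi, ← add_sum_erase S (fun j => if i = j then (0 : ℂ) else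
          c i * (starRingEnd ℂ) (c j) * ∑ k ∈ range K, (ω i * (starRingEnd ℂ) (ω j)) ^ k) hi]
      rw [if_pos rfl, zero_add, hunit]
      simp only [one_pow, sum_const, card_range, nsmul_eq_mul, mul_one]
      have e2 : ∑ j ∈ S.erase i, (if i = j then (0 : ℂ) else
          c i * (starRingEnd ℂ) (c j) * ∑ k ∈ range K, (ω i * (starRingEnd ℂ) (ω j)) ^ k) =
          ∑ j ∈ S.erase i, c i * (starRingEnd ℂ) (c j) *
            ∑ k ∈ range K, (ω i * (starRingEnd ℂ) (ω j)) ^ k := by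
        refine sum_congr rfl fun j hj => ?_
        rw [if_neg (ne_of_mem_erase hj).symm]
      rw [e2]
      ring
    have h3 : ‖(∑ k ∈ range K, ((‖∑ i ∈ S, c i * ω i ^ k‖ ^ 2 : ℝ) : ℂ)) -
        ((K * ∑ i ∈ S, ‖c i‖ ^ 2 : ℝ) : ℂ)‖ ≤ C := by
      rw [h2, hC]
      refine (norm_sum_le _ _).trans (sum_le_sum fun i hi => (norm_sum_le _ _).trans
        (sum_le_sum fun j hj => ?_))
      split_ifs with hij
      · simp
      · have hne : ω i * (starRingEnd ℂ) (ω j) ≠ 1 := by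
          intro h
          apply hinj i hi j hj hij
          calc ω i = ω i * ((starRingEnd ℂ) (ω j) * ω j) := by
                rw [mul_comm ((starRingEnd ℂ) (ω j)), hunit, mul_one]
            _ = (ω i * (starRingEnd ℂ) (ω j)) * ω j := by ring
            _ = ω j := by rw [h, one_mul]
        rw [norm_mul, norm_mul, RCLike.norm_conj, geom_sum_eq hne, norm_div]
        refine mul_le_mul_of_nonneg_left ?_ (by positivity)
        refine div_le_div_of_nonneg_right ?_ (norm_nonneg _)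
        refine (norm_sub_le _ _).trans ?_
        rw [norm_pow, norm_mul, RCLike.norm_conj, hω, hω]
        norm_num
    have h4 : (∑ k ∈ range K, ((‖∑ i ∈ S, c i * ω i ^ k‖ ^ 2 : ℝ) : ℂ)) -
        ((K * ∑ i ∈ S, ‖c i‖ ^ 2 : ℝ) : ℂ) = ((∑ k ∈ range K, ‖∑ i ∈ S, c i * ω i ^ k‖ ^ 2 -
          K * ∑ i ∈ S, ‖c i‖ ^ 2 : ℝ) : ℂ) := by
      push_cast
      ring
    rw [h4, Complex.norm_real, Real.norm_eq_abs, abs_le] at h3
    have h5 : ∑ k ∈ range K, ‖∑ i ∈ S, c i * ω i ^ k‖ ^ 2 ≤ K * B ^ 2 := by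
      refine (sum_le_sum fun k _ => pow_le_pow_left₀ (norm_nonneg _) (hB k) 2).trans (le_of_eq ?_)
      rw [sum_const, card_range, nsmul_eq_mul]
    linarith [h3.1]
  by_contra hcon
  push Not at hcon
  obtain ⟨K, hK⟩ := exists_nat_gt (C / (∑ i ∈ S, ‖c i‖ ^ 2 - B ^ 2))
  rw [div_lt_iff₀ (by linarith)] at hK
  have := key K
  nlinarith

/-- `p ^ (i t)` -/
noncomputable def pit (p : ℕ) (t : ℝ) : ℂ := Complex.exp (((t * Real.log p : ℝ) : ℂ) * Complex.I)

lemma pit_norm (p : ℕ) (t : ℝ) : ‖pit p t‖ = 1 := Complex.norm_exp_ofReal_mul_I _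

lemma pit_nat (p k : ℕ) (t : ℝ) : pit p (k * t) = pit p t ^ k := by
  unfold pit
  rw [← Complex.exp_nat_mul]
  congr 1
  push_cast
  ring

/-- small powers are different at different integers -/
lemma pit_inj (N : ℕ) : ∃ τ : ℝ, 0 < τ ∧ ∀ m n : ℕ, 1 ≤ m → 1 ≤ n → m ≤ N → n ≤ N →
    pit m τ = pit n τ → m = n := by
  refine ⟨1 / (Real.log (N + 1) + 1), by
    have : 0 ≤ Real.log ((N : ℝ) + 1) := Real.log_nonneg (by
      have : (0 : ℝ) ≤ N := Nat.cast_nonneg N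
      linarith)
    positivity, fun m n hm hn hmN hnN h => ?_⟩
  have hL : 0 ≤ Real.log ((N : ℝ) + 1) := Real.log_nonneg (by
      have : (0 : ℝ) ≤ N := Nat.cast_nonneg N
      linarith)
  obtain ⟨τ, hτ⟩ : ∃ τ : ℝ, τ = 1 / (Real.log (N + 1) + 1) := ⟨_, rfl⟩
  rw [← hτ] at h
  have hτ0 : 0 < τ := by rw [hτ]; positivity
  have hb : ∀ l : ℕ, 1 ≤ l → l ≤ N → 0 ≤ τ * Real.log l ∧ τ * Real.log l ≤ 1 := by
    intro l hl hlN
    have h1 : 0 ≤ Real.log l := Real.log_nonneg (by exact_mod_cast hl)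
    have h2 : Real.log l ≤ Real.log (N + 1) := Real.log_le_log (by exact_mod_cast hl) (by
      have : (l : ℝ) ≤ N := by exact_mod_cast hlN
      linarith)
    refine ⟨by positivity, ?_⟩
    rw [hτ, one_div, inv_mul_le_iff₀ (by positivity)]
    linarith
  unfold pit at h
  rw [Complex.exp_eq_exp_iff_exists_int] at h
  obtain ⟨k, hk⟩ := h
  have h1 : τ * Real.log m = τ * Real.log n + k * (2 * Real.pi) := by
    have h2 : ((τ * Real.log m : ℝ) : ℂ) = ((τ * Real.log n + k * (2 * Real.pi) : ℝ) : ℂ) := by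
      have h3 : ((τ * Real.log m : ℝ) : ℂ) * Complex.I =
          ((τ * Real.log n + k * (2 * Real.pi) : ℝ) : ℂ) * Complex.I := by
        rw [hk]
        push_cast
        ring
      exact mul_right_cancel₀ Complex.I_ne_zero h3
    exact_mod_cast h2
  have h2 := hb m hm hmN
  have h3 := hb n hn hnN
  have hpi := Real.pi_gt_three
  have hk0 : k = 0 := by
    by_contra hne
    rcases lt_or_gt_of_ne hne with h4 | h4
    · have h5 : (k : ℝ) ≤ -1 := by exact_mod_cast (by omega : k ≤ -1)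
      nlinarith
    · have h5 : (1 : ℝ) ≤ k := by exact_mod_cast (by omega : 1 ≤ k)
      nlinarith
  rw [hk0] at h1
  simp only [Int.cast_zero, zero_mul, add_zero] at h1
  have h4 := mul_left_cancel₀ hτ0.ne' h1
  have h5 := Real.log_injOn_pos (Set.mem_Ioi.2 (by exact_mod_cast hm))
    (Set.mem_Ioi.2 (by exact_mod_cast hn)) h4
  exact_mod_cast h5

lemma pit_mul (m n : ℕ) (hm : m ≠ 0) (hn : n ≠ 0) (t : ℝ) : pit (m * n) t = pit m t * pit n t := by
  unfold pit
  rw [← Complex.exp_add]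
  congr 1
  rw [Nat.cast_mul, Real.log_mul (by exact_mod_cast hm) (by exact_mod_cast hn)]
  push_cast
  ring

lemma pit_prod {ι : Type} (S : Finset ι) (f : ι → ℕ) (hf : ∀ i ∈ S, f i ≠ 0) (t : ℝ) :
    pit (∏ i ∈ S, f i) t = ∏ i ∈ S, pit (f i) t := by
  classical
  induction S using Finset.induction_on with
  | empty => simp [pit]
  | insert a S ha ih =>
    rw [prod_insert ha, prod_insert ha, pit_mul _ _ (hf a (mem_insert_self _ _))
      (prod_ne_zero_iff.2 fun i hi => hf i (mem_insert_of_mem hi)),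
      ih fun i hi => hf i (mem_insert_of_mem hi)]

lemma pit_pow (p a : ℕ) (t : ℝ) : pit (p ^ a) t = pit p t ^ a := by
  rw [← pit_nat]
  unfold pit
  congr 3
  rw [Nat.cast_pow, Real.log_pow]
  ring

/-- the mean of the powers of the product -/
lemma kron_mean (P : Finset ℕ) (hP : ∀ p ∈ P, p.Prime) (z : ℂ) (hz : ‖z‖ = 1) (ρ : ℝ)
    (hρ : ∀ t : ℝ, ‖∏ p ∈ P, ((1 + z * pit p t) / 2)‖ ≤ ρ) (m : ℕ) :
    (1 / ((m : ℝ) + 1)) ^ P.card ≤ (ρ ^ m) ^ 2 := by
  classical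
  obtain ⟨A, hA⟩ : ∃ A : Finset (P → ℕ), A = Fintype.piFinset fun _ : P => range (m + 1) := ⟨_, rfl⟩
  obtain ⟨Nn, hNn⟩ : ∃ Nn : (P → ℕ) → ℕ, Nn = fun a => ∏ p : P, (p : ℕ) ^ a p := ⟨_, rfl⟩
  have hN1 : ∀ a, 1 ≤ Nn a := by
    intro a
    rw [hNn]
    exact Nat.one_le_iff_ne_zero.2 (prod_ne_zero_iff.2 fun p _ =>
      pow_ne_zero _ (hP p p.2).ne_zero)
  have hfac : ∀ (a : P → ℕ) (p : P), (Nn a).factorization p = a p := by
    intro a p
    rw [hNn]
    simp only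
    rw [Nat.factorization_prod_apply (S := (univ : Finset P)) (g := fun q : P => (q : ℕ) ^ a q)
      fun q _ => pow_ne_zero _ (hP _ q.2).ne_zero]
    rw [sum_eq_single p]
    · rw [Nat.factorization_pow, Finsupp.smul_apply, (hP p p.2).factorization,
        Finsupp.single_eq_same, smul_eq_mul, mul_one]
    · intro q _ hq
      rw [Nat.factorization_pow, Finsupp.smul_apply, (hP q q.2).factorization,
        Finsupp.single_apply, if_neg (fun h => hq (Subtype.ext h)), smul_zero]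
    · intro h
      exact absurd (mem_univ p) h
  have hNinj : ∀ a a' : P → ℕ, Nn a = Nn a' → a = a' := by
    intro a a' h
    funext p
    rw [← hfac a p, ← hfac a' p, h]
  obtain ⟨τ, hτ, hinj⟩ := pit_inj (∑ a ∈ A, Nn a)
  obtain ⟨c, hc⟩ : ∃ c : (P → ℕ) → ℂ, c = fun a => ∏ p : P, ((m.choose (a p) : ℂ) * z ^ a p / 2 ^ m) :=
    ⟨_, rfl⟩
  have h1 : ∑ a ∈ A, ‖c a‖ ^ 2 ≤ (ρ ^ m) ^ 2 := by
    refine mean_sq_exp A c (fun a => pit (Nn a) τ) (fun a => pit_norm _ _) ?_ (ρ ^ m) ?_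
    · intro a ha a' ha' hne h
      have ea : Nn a ≤ ∑ a ∈ A, Nn a := single_le_sum (f := Nn) (fun _ _ => Nat.zero_le _) ha
      have ea' : Nn a' ≤ ∑ a ∈ A, Nn a := single_le_sum (f := Nn) (fun _ _ => Nat.zero_le _) ha'
      exact hne (hNinj a a' (hinj _ _ (hN1 a) (hN1 a') ea ea' h))
    · intro k
      have h2 : ∑ a ∈ A, c a * pit (Nn a) τ ^ k =
          (∏ p ∈ P, ((1 + z * pit p (k * τ)) / 2)) ^ m := by
        rw [← prod_coe_sort P, ← prod_pow]
        have h3 : ∀ p : P, ((1 + z * pit p (k * τ)) / 2) ^ m =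
            ∑ j ∈ range (m + 1), (m.choose j : ℂ) * z ^ j / 2 ^ m * pit p (k * τ) ^ j := by
          intro p
          rw [div_pow, add_comm (1 : ℂ), add_pow, sum_div]
          refine sum_congr rfl fun j _ => ?_
          rw [one_pow, mul_one, mul_pow]
          ring
        rw [prod_congr rfl fun p _ => h3 p, prod_univ_sum, ← hA]
        refine sum_congr rfl fun a _ => ?_
        rw [prod_mul_distrib, hc]
        congr 1
        rw [hNn]
        simp only
        rw [pit_prod (univ : Finset P) (fun p : P => (p : ℕ) ^ a p)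
          (fun p _ => pow_ne_zero _ (hP _ p.2).ne_zero), ← prod_pow]
        refine prod_congr rfl fun p _ => ?_
        rw [pit_pow, pit_nat, ← pow_mul, ← pow_mul, mul_comm]
      rw [h2, norm_pow]
      exact pow_le_pow_left₀ (norm_nonneg _) (hρ _) m
  refine le_trans ?_ h1
  have h4 : ∑ a ∈ A, ‖c a‖ ^ 2 = ∏ _p : P, ∑ j ∈ range (m + 1), ((m.choose j : ℝ) / 2 ^ m) ^ 2 := by
    rw [prod_univ_sum, ← hA]
    refine sum_congr rfl fun a _ => ?_
    rw [hc]
    simp only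
    rw [norm_prod, ← prod_pow]
    refine prod_congr rfl fun p _ => ?_
    rw [norm_div, norm_mul, norm_pow, hz, one_pow, mul_one, norm_pow, Complex.norm_natCast]
    norm_num
  rw [h4, prod_const, card_univ, Fintype.card_coe]
  refine pow_le_pow_left₀ (by positivity) ?_ _
  have h5 := sq_sum_le_card_mul_sum_sq (s := range (m + 1)) (f := fun j => (m.choose j : ℝ) / 2 ^ m)
  rw [← sum_div] at h5
  have h6 : ∑ j ∈ range (m + 1), (m.choose j : ℝ) = 2 ^ m := by
    exact_mod_cast Nat.sum_range_choose m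
  rw [h6, div_self (by positivity), one_pow, card_range] at h5
  rw [div_le_iff₀ (by positivity)]
  push_cast at h5
  linarith

/-- Kronecker's theorem for the logarithms of the primes -/
theorem kron (w : ℕ) (z : ℂ) (hz : ‖z‖ = 1) (δ : ℝ) (hδ : 0 < δ) : ∃ t : ℝ, ∀ p : ℕ, p.Prime →
    p ≤ w → ‖pit p t - z‖ ≤ δ := by
  classical
  obtain ⟨P, hPd⟩ : ∃ P : Finset ℕ, P = (range (w + 1)).filter Nat.Prime := ⟨_, rfl⟩
  have hP : ∀ p ∈ P, p.Prime := by
    intro p hp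
    rw [hPd] at hp
    exact (mem_filter.1 hp).2
  have hzc : ‖(starRingEnd ℂ) z‖ = 1 := by rw [RCLike.norm_conj, hz]
  obtain ⟨ρ, hρ0, hρ1, hρδ⟩ : ∃ ρ : ℝ, 0 < ρ ∧ ρ < 1 ∧ 4 - 4 * ρ ^ 2 ≤ δ ^ 2 := by
    refine ⟨1 - min (δ ^ 2 / 8) (1 / 2), ?_, ?_, ?_⟩
    · have := min_le_right (δ ^ 2 / 8) (1 / 2)
      linarith
    · have : 0 < min (δ ^ 2 / 8) (1 / 2) := by positivity
      linarith
    · have h1 := min_le_left (δ ^ 2 / 8) (1 / 2)
      have h2 : 0 < min (δ ^ 2 / 8) (1 / 2) := by positivity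
      nlinarith
  obtain ⟨t, ht⟩ : ∃ t : ℝ, ρ < ‖∏ p ∈ P, ((1 + (starRingEnd ℂ) z * pit p t) / 2)‖ := by
    by_contra hcon
    push Not at hcon
    have h1 := fun m => kron_mean P hP ((starRingEnd ℂ) z) hzc ρ hcon m
    have h2 := tendsto_pow_const_mul_const_pow_of_lt_one P.card (r := ρ ^ 2) (by positivity)
      (by nlinarith)
    have h3 : Tendsto (fun m : ℕ => ((m : ℝ) + 1) ^ P.card * (ρ ^ m) ^ 2) atTop (𝓝 0) := by
      have h4 := (tendsto_add_atTop_iff_nat 1).2 h2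
      have h5 := h4.const_mul (1 / ρ ^ 2)
      rw [mul_zero] at h5
      refine h5.congr fun m => ?_
      push_cast
      rw [pow_succ (ρ ^ 2), ← pow_mul, ← pow_mul, mul_comm m 2]
      field_simp
    obtain ⟨m, hm⟩ := (h3.eventually_lt_const (zero_lt_one)).exists
    have h6 := h1 m
    rw [one_div, inv_pow, inv_le_iff_one_le_mul₀ (by positivity)] at h6
    linarith
  refine ⟨t, fun p hp hpw => ?_⟩
  have hpP : p ∈ P := by
    rw [hPd, mem_filter, mem_range]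
    exact ⟨by omega, hp⟩
  have hle : ∀ q : ℕ, ‖(1 + (starRingEnd ℂ) z * pit q t) / 2‖ ≤ 1 := by
    intro q
    rw [norm_div]
    have h1 := norm_add_le (1 : ℂ) ((starRingEnd ℂ) z * pit q t)
    rw [norm_mul, hzc, pit_norm, norm_one] at h1
    have h2 : ‖(2 : ℂ)‖ = 2 := by norm_num
    rw [h2, div_le_one (by norm_num)]
    linarith
  rw [← mul_prod_erase P _ hpP, norm_mul] at ht
  have h3 : ‖∏ q ∈ P.erase p, ((1 + (starRingEnd ℂ) z * pit q t) / 2)‖ ≤ 1 := by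
    rw [norm_prod]
    exact prod_le_one (fun _ _ => norm_nonneg _) fun q _ => hle q
  have h4 : ρ < ‖(1 + (starRingEnd ℂ) z * pit p t) / 2‖ := by
    refine lt_of_lt_of_le ht (mul_le_of_le_one_right (norm_nonneg _) h3)
  have h5 : 2 * ρ < ‖1 + (starRingEnd ℂ) z * pit p t‖ := by
    rw [norm_div] at h4
    have h2 : ‖(2 : ℂ)‖ = 2 := by norm_num
    rw [h2, lt_div_iff₀ (by norm_num)] at h4
    linarith
  obtain ⟨u, hu⟩ : ∃ u : ℂ, u = (starRingEnd ℂ) z * pit p t := ⟨_, rfl⟩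
  have hu1 : ‖u‖ = 1 := by rw [hu, norm_mul, hzc, pit_norm, one_mul]
  have h6 : pit p t - z = z * (u - 1) := by
    have h7 : z * (starRingEnd ℂ) z = 1 := by
      rw [Complex.mul_conj, Complex.normSq_eq_norm_sq, hz]
      norm_num
    rw [hu, mul_sub, ← mul_assoc, h7]
    ring
  rw [h6, norm_mul, hz, one_mul]
  rw [← hu] at h5
  have h7 : ‖1 + u‖ ^ 2 + ‖u - 1‖ ^ 2 = 4 := by
    have e1 := Complex.sq_norm (1 + u)
    have e2 := Complex.sq_norm (u - 1)
    have e3 := Complex.sq_norm u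
    rw [hu1] at e3
    rw [e1, e2]
    rw [Complex.normSq_apply] at e3 ⊢
    rw [Complex.normSq_apply]
    simp only [Complex.add_re, Complex.add_im, Complex.one_re, Complex.one_im, Complex.sub_re,
      Complex.sub_im]
    nlinarith
  have h8 : ‖u - 1‖ ^ 2 ≤ δ ^ 2 := by
    have : (2 * ρ) ^ 2 ≤ ‖1 + u‖ ^ 2 := pow_le_pow_left₀ (by positivity) h5.le 2
    nlinarith
  exact (pow_le_pow_iff_left₀ (norm_nonneg _) hδ.le (by norm_num)).1 h8

end Pool.Agent.Run7.h348.EF
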