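import Pool.Agent.Run7.h348.EF.Cnt
import Pool.Agent.Run7.h348.EF.Kron

/-!
Only the diagonal shifts are possible.
-/

set_option autoImplicit false

namespace Pool.Agent.Run7.h348.EF

open Finset Filter Topology

lemma pow_close {ι : Type} (S : Finset ι) (f : ι → ℂ) (hf : ∀ i ∈ S, ‖f i‖ = 1) (z : ℂ)
    (hz : ‖z‖ = 1) (δ : ℝ) (h : ∀ i ∈ S, ‖f i - z‖ ≤ δ) : ‖∏ i ∈ S, f i - z ^ S.card‖ ≤ S.card * δ := by
  classical
  induction S using Finset.induction_on with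
  | empty => simp
  | insert a S ha ih =>
    rw [prod_insert ha, card_insert_of_notMem ha, pow_succ]
    have h1 := ih (fun i hi => hf i (mem_insert_of_mem hi)) (fun i hi => h i (mem_insert_of_mem hi))
    have h2 := h a (mem_insert_self _ _)
    have e : f a * ∏ i ∈ S, f i - z ^ S.card * z = f a * (∏ i ∈ S, f i - z ^ S.card) +
        (f a - z) * z ^ S.card := by ring
    rw [e]
    refine (norm_add_le _ _).trans ?_
    rw [norm_mul, norm_mul, hf a (mem_insert_self _ _), one_mul, norm_pow, hz, one_pow, mul_one]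
    push_cast
    linarith

/-- `n ^ (i t)` is close to a function of `cnt` and `rst` -/
lemma pit_close (w : ℕ) (t : ℝ) (z : ℂ) (hz : ‖z‖ = 1) (δ : ℝ) (hδ : 0 ≤ δ)
    (h : ∀ p : ℕ, p.Prime → p ≤ w → ‖pit p t - z‖ ≤ δ) (n : ℕ) :
    ‖z ^ cnt w n * pit (rst w n) t - pit n t‖ ≤ w * δ := by
  have h1 : pit n t = (∏ p ∈ sgl w n, pit p t) * pit (rst w n) t := by
    rcases Nat.eq_zero_or_pos n with h0 | h0
    · subst h0
      have e1 : sgl w 0 = ∅ := by
        unfold sgl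
        rw [filter_eq_empty_iff]
        intro p _ hp
        simp at hp
      rw [e1, prod_empty, one_mul]
      unfold rst
      simp
    · have hprod : ∏ p ∈ sgl w n, p ≠ 0 := by
        rw [prod_ne_zero_iff]
        intro p hp
        rw [sgl, mem_filter] at hp
        exact hp.2.1.ne_zero
      have hr : rst w n ≠ 0 := by
        intro h2
        have := rst_mul_prod w n
        rw [h2, zero_mul] at this
        omega
      conv_lhs => rw [← rst_mul_prod w n]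
      rw [pit_mul _ _ hr hprod, pit_prod (sgl w n) (fun p => p) (fun p hp => by
        rw [sgl, mem_filter] at hp
        exact hp.2.1.ne_zero), mul_comm]
  have h2 := pow_close (sgl w n) (fun p => pit p t) (fun p _ => pit_norm p t) z hz δ (fun p hp => by
    rw [sgl, mem_filter, mem_Ioc] at hp
    exact h p hp.2.1 hp.1.2)
  have h3 : ((sgl w n).card : ℝ) ≤ w := by exact_mod_cast cnt_le w n
  rw [h1, ← sub_mul, norm_mul, pit_norm, mul_one, norm_sub_rev]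
  unfold cnt
  exact h2.trans (mul_le_mul_of_nonneg_right h3 hδ)

/-- the ratio of the powers at two linear forms -/
lemma pit_ratio (a a' : ℕ) (b b' : ℤ) (ha : 1 ≤ a) (ha' : 1 ≤ a') (t : ℝ) :
    ∃ c : ℂ, ‖c‖ = 1 ∧ Tendsto (fun n : ℕ => pit ((a : ℤ) * n + b).natAbs t *
      (starRingEnd ℂ) (pit ((a' : ℤ) * n + b').natAbs t)) atTop (𝓝 c) := by
  have hlog : ∀ (a : ℕ) (b : ℤ), 1 ≤ a → Tendsto (fun n : ℕ =>
      Real.log (((a : ℤ) * n + b).natAbs : ℝ) - Real.log n) atTop (𝓝 (Real.log a)) := by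
    intro a b ha
    have ha0 : (0 : ℝ) < a := by exact_mod_cast ha
    have h1 : Tendsto (fun n : ℕ => (a : ℝ) + b / n) atTop (𝓝 a) := by
      have := (tendsto_const_div_atTop_nhds_zero_nat (b : ℝ)).const_add (a : ℝ)
      simpa using this
    have h2 := (Real.continuousAt_log ha0.ne').tendsto.comp h1
    refine h2.congr' ?_
    filter_upwards [eventually_ge_atTop (b.natAbs + 1)] with n hn
    have hn0 : (0 : ℝ) < n := by exact_mod_cast (by omega : 0 < n)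
    have h3 : 0 < (a : ℤ) * n + b := by
      have : (n : ℤ) ≤ a * n := by nlinarith
      omega
    have h4 : ((((a : ℤ) * n + b).natAbs : ℕ) : ℝ) = a * n + b := by
      have h5 : ((((a : ℤ) * n + b).natAbs : ℕ) : ℤ) = (a : ℤ) * n + b := Int.natAbs_of_nonneg h3.le
      have h6 := congrArg (fun x : ℤ => (x : ℝ)) h5
      simp only [Int.cast_natCast] at h6
      rw [h6]
      push_cast
      ring
    have h7 : (0 : ℝ) < a * n + b := by
      have : (0 : ℝ) < (((a : ℤ) * n + b : ℤ) : ℝ) := by exact_mod_cast h3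
      push_cast at this
      exact this
    simp only [Function.comp]
    rw [h4, ← Real.log_div h7.ne' hn0.ne']
    congr 1
    field_simp
  refine ⟨Complex.exp (((t * (Real.log a - Real.log a') : ℝ) : ℂ) * Complex.I),
    Complex.norm_exp_ofReal_mul_I _, ?_⟩
  have h1 := ((hlog a b ha).sub (hlog a' b' ha')).const_mul t
  have h2 : Continuous fun x : ℝ => Complex.exp ((x : ℂ) * Complex.I) := by fun_prop
  refine ((h2.tendsto _).comp h1).congr fun n => ?_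
  simp only [Function.comp]
  unfold pit
  rw [← Complex.exp_conj, ← Complex.exp_add]
  congr 1
  rw [map_mul, Complex.conj_ofReal, Complex.conj_I]
  push_cast
  ring

/-- For every vector which is not constant the shift by this vector is impossible. -/
theorem sharp (k : ℕ) (a : Fin k → ℕ) (b : Fin k → ℤ) (ha : ∀ j, 1 ≤ a j) (w : ℕ) (v : Fin k → ℕ)
    (i₁ i₂ : Fin k) (hv : v i₁ ≠ v i₂) : ∃ Φ : Fin k → ℕ → ℕ → ℂ, (∀ j l r, ‖Φ j l r‖ ≤ 1) ∧
      ∃ N₀ : ℕ, ∀ N : ℕ, N₀ ≤ N → (N : ℝ) ≤ ‖∑ n ∈ Icc 1 N,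
        ((∏ j, Φ j (cnt w ((a j : ℤ) * n + b j).natAbs) (rst w ((a j : ℤ) * n + b j).natAbs)) -
          ∏ j, Φ j (cnt w ((a j : ℤ) * n + b j).natAbs + v j)
            (rst w ((a j : ℤ) * n + b j).natAbs))‖ := by
  classical
  have hne : i₁ ≠ i₂ := fun h => hv (by rw [h])
  obtain ⟨d, hd⟩ : ∃ d : ℝ, d = (v i₁ : ℝ) - v i₂ := ⟨_, rfl⟩
  have hd0 : d ≠ 0 := by
    rw [hd, sub_ne_zero]
    exact_mod_cast hv
  obtain ⟨z, hzd⟩ : ∃ z : ℂ, z = Complex.exp (((Real.pi / d : ℝ) : ℂ) * Complex.I) := ⟨_, rfl⟩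
  have hz : ‖z‖ = 1 := by rw [hzd]; exact Complex.norm_exp_ofReal_mul_I _
  have hzz : z * (starRingEnd ℂ) z = 1 := by
    rw [Complex.mul_conj, Complex.normSq_eq_norm_sq, hz]
    norm_num
  have hζ : z ^ v i₁ * (starRingEnd ℂ) z ^ v i₂ = -1 := by
    rw [hzd, ← Complex.exp_conj, ← Complex.exp_nat_mul, ← Complex.exp_nat_mul, ← Complex.exp_add,
      ← Complex.exp_pi_mul_I]
    congr 1
    rw [map_mul, Complex.conj_ofReal, Complex.conj_I]
    have h1 : (v i₁ : ℂ) - v i₂ = ((d : ℝ) : ℂ) := by rw [hd]; push_cast; ring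
    have h2 : ((d : ℝ) : ℂ) ≠ 0 := by exact_mod_cast hd0
    push_cast
    calc (v i₁ : ℂ) * (Real.pi / d * Complex.I) + v i₂ * (Real.pi / d * -Complex.I) =
        ((v i₁ : ℂ) - v i₂) * (Real.pi / d) * Complex.I := by ring
      _ = _ := by
          rw [h1]
          field_simp
  obtain ⟨δ, hδd⟩ : ∃ δ : ℝ, δ = 1 / (8 * (w + 1)) := ⟨_, rfl⟩
  have hδ : 0 < δ := by rw [hδd]; positivity
  have hwδ : w * δ ≤ 1 / 8 := by
    rw [hδd, mul_one_div, div_le_div_iff₀ (by positivity) (by norm_num)]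
    linarith
  obtain ⟨t, ht⟩ := kron w z hz δ hδ
  obtain ⟨Θ, hΘ⟩ : ∃ Θ : ℕ → ℕ → ℂ, Θ = fun l r => z ^ l * pit r t := ⟨_, rfl⟩
  have hΘ1 : ∀ l r, ‖Θ l r‖ = 1 := by
    intro l r
    rw [hΘ]
    simp only
    rw [norm_mul, norm_pow, hz, one_pow, one_mul, pit_norm]
  obtain ⟨Φ, hΦ⟩ : ∃ Φ : Fin k → ℕ → ℕ → ℂ, Φ = fun j l r => if j = i₁ then Θ l r else
      if j = i₂ then (starRingEnd ℂ) (Θ l r) else 1 := ⟨_, rfl⟩
  have hprod : ∀ u r : Fin k → ℕ, ∏ j, Φ j (u j) (r j) =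
      Θ (u i₁) (r i₁) * (starRingEnd ℂ) (Θ (u i₂) (r i₂)) := by
    intro u r
    rw [← mul_prod_erase univ _ (mem_univ i₁), ← mul_prod_erase (univ.erase i₁) _
      (mem_erase.2 ⟨hne.symm, mem_univ i₂⟩)]
    rw [prod_eq_one]
    · rw [hΦ]
      simp only [if_true]
      rw [if_neg hne.symm, mul_one]
    · intro j hj
      rw [mem_erase, mem_erase] at hj
      rw [hΦ]
      simp only
      rw [if_neg hj.2.1, if_neg hj.1]
  refine ⟨Φ, fun j l r => ?_, ?_⟩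
  · rw [hΦ]
    simp only
    split_ifs
    · exact (hΘ1 l r).le
    · rw [RCLike.norm_conj]
      exact (hΘ1 l r).le
    · simp
  -- the main function
  obtain ⟨ψ, hψ⟩ : ∃ ψ : ℕ → ℂ, ψ = fun n : ℕ => Θ (cnt w ((a i₁ : ℤ) * n + b i₁).natAbs)
      (rst w ((a i₁ : ℤ) * n + b i₁).natAbs) *
      (starRingEnd ℂ) (Θ (cnt w ((a i₂ : ℤ) * n + b i₂).natAbs)
        (rst w ((a i₂ : ℤ) * n + b i₂).natAbs)) := ⟨_, rfl⟩
  obtain ⟨φ, hφ⟩ : ∃ φ : ℕ → ℂ, φ = fun n : ℕ => pit ((a i₁ : ℤ) * n + b i₁).natAbs t *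
      (starRingEnd ℂ) (pit ((a i₂ : ℤ) * n + b i₂).natAbs t) := ⟨_, rfl⟩
  have hdiff : ∀ n, ‖ψ n - φ n‖ ≤ 1 / 4 := by
    intro n
    rw [hψ, hφ]
    simp only
    have h1 : ∀ m : ℕ, ‖Θ (cnt w m) (rst w m) - pit m t‖ ≤ 1 / 8 := by
      intro m
      rw [hΘ]
      exact (pit_close w t z hz δ hδ.le ht m).trans hwδ
    have h2 : ∀ A B C D : ℂ, ‖A‖ = 1 → ‖D‖ = 1 → ‖A - C‖ ≤ 1 / 8 → ‖B - D‖ ≤ 1 / 8 →
        ‖A * (starRingEnd ℂ) B - C * (starRingEnd ℂ) D‖ ≤ 1 / 4 := by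
      intro A B C D hA hD h3 h4
      have e : A * (starRingEnd ℂ) B - C * (starRingEnd ℂ) D =
          A * (starRingEnd ℂ) (B - D) + (A - C) * (starRingEnd ℂ) D := by
        rw [map_sub]
        ring
      rw [e]
      refine (norm_add_le _ _).trans ?_
      rw [norm_mul, norm_mul, RCLike.norm_conj, RCLike.norm_conj, hA, hD, one_mul, mul_one]
      linarith
    exact h2 _ _ _ _ (hΘ1 _ _) (pit_norm _ _) (h1 _) (h1 _)
  have hsum : ∀ N : ℕ, ∑ n ∈ Icc 1 N,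
        ((∏ j, Φ j (cnt w ((a j : ℤ) * n + b j).natAbs) (rst w ((a j : ℤ) * n + b j).natAbs)) -
          ∏ j, Φ j (cnt w ((a j : ℤ) * n + b j).natAbs + v j)
            (rst w ((a j : ℤ) * n + b j).natAbs)) = 2 * ∑ n ∈ Icc 1 N, ψ n := by
    intro N
    rw [mul_sum]
    refine sum_congr rfl fun n _ => ?_
    rw [hprod (fun j => cnt w ((a j : ℤ) * n + b j).natAbs)
      (fun j => rst w ((a j : ℤ) * n + b j).natAbs),
      hprod (fun j => cnt w ((a j : ℤ) * n + b j).natAbs + v j)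
      (fun j => rst w ((a j : ℤ) * n + b j).natAbs), hψ, hΘ]
    simp only [map_mul, map_pow, pow_add]
    have h1 : ∀ A B C D E F : ℂ, A * E * B * (C * F * D) = (E * F) * (A * B * (C * D)) := by
      intro A B C D E F
      ring
    rw [h1, hζ]
    ring
  obtain ⟨c, hc, hlim⟩ := pit_ratio (a i₁) (a i₂) (b i₁) (b i₂) (ha i₁) (ha i₂) t
  rw [← hφ] at hlim
  have hces := hlim.cesaro_smul
  have h2 : Tendsto (fun N : ℕ => ‖((N : ℝ)⁻¹ : ℝ) • ∑ n ∈ range N, φ n‖) atTop (𝓝 1) := by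
    rw [← hc]
    exact hces.norm
  have h3 := (h2.comp (tendsto_add_atTop_nat 1)).eventually_const_lt (show (7 / 8 : ℝ) < 1 by norm_num)
  obtain ⟨N₀, hN₀⟩ := eventually_atTop.1 h3
  refine ⟨N₀ + 16, fun N hN => ?_⟩
  rw [hsum, norm_mul]
  have h4 := hN₀ N (by omega)
  simp only [Function.comp] at h4
  have hN1 : (0 : ℝ) < ((N + 1 : ℕ) : ℝ) := by positivity
  rw [norm_smul, Real.norm_eq_abs, abs_of_pos (inv_pos.2 hN1), inv_mul_eq_div, lt_div_iff₀ hN1] at h4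
  have h5 : ∑ n ∈ range (N + 1), φ n = φ 0 + ∑ n ∈ Icc 1 N, φ n := by
    have e1 : Icc 1 N = Ico 1 (N + 1) := by
      ext n
      rw [mem_Icc, mem_Ico]
      omega
    rw [range_eq_Ico, sum_eq_sum_Ico_succ_bot (by omega), e1]
  have h6 : ‖φ 0‖ = 1 := by
    rw [hφ]
    simp only
    rw [norm_mul, RCLike.norm_conj, pit_norm, pit_norm, one_mul]
  have h7 : ‖∑ n ∈ Icc 1 N, ψ n - ∑ n ∈ Icc 1 N, φ n‖ ≤ N * (1 / 4) := by
    rw [← sum_sub_distrib]
    refine (norm_sum_le _ _).trans ((sum_le_sum fun n _ => hdiff n).trans (le_of_eq ?_))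
    rw [sum_const, nsmul_eq_mul, Nat.card_Icc, Nat.add_sub_cancel]
  have h8 := norm_add_le (φ 0) (∑ n ∈ Icc 1 N, φ n)
  rw [← h5, h6] at h8
  have h9 := norm_sub_norm_le (∑ n ∈ Icc 1 N, φ n) (∑ n ∈ Icc 1 N, ψ n)
  rw [norm_sub_rev] at h9
  have h10 : ‖(2 : ℂ)‖ = 2 := by norm_num
  have h11 : (16 : ℝ) ≤ N := by exact_mod_cast (by omega : 16 ≤ N)
  push_cast at h4
  rw [h10]
  linarith

end Pool.Agent.Run7.h348.EF
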