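import Pool.Agent.Run7.h348.EF.Om
import Pool.Agent.Run7.h348.EF.Conv
import Pool.Agent.Run7.h348.EF.Cnt

/-!
The diagonal shift at fixed shifts, jointly with everything but the identity of the small primes
dividing the numbers exactly once.
-/

set_option autoImplicit false

namespace Pool.Agent.Run7.h348.EF

open Finset Pool.Agent.TH575.CW Pool.Agent.N781.A Pool.Agent.N781.OM Pool.Agent.N781.E

/-- the functions, with the number of the primes increased by `l - 1` -/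
noncomputable def AA {k : ℕ} (w : ℕ) (f : Fin k → ℕ → ℂ) (Φ : Fin k → ℕ → ℕ → ℂ) (l : ℕ) :
    Fin k → ℤ → ℂ := fun j m => f j m.natAbs *
  if cnt w m.natAbs + l = 0 then 0 else Φ j (cnt w m.natAbs + l - 1) (rst w m.natAbs)

lemma AA_norm {k : ℕ} {w : ℕ} {f : Fin k → ℕ → ℂ} {Φ : Fin k → ℕ → ℕ → ℂ} (hf : ∀ j n, ‖f j n‖ ≤ 1)
    (hΦ : ∀ j l r, ‖Φ j l r‖ ≤ 1) (l : ℕ) (j : Fin k) (m : ℤ) : ‖AA w f Φ l j m‖ ≤ 1 := by
  unfold AA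
  rw [norm_mul]
  refine mul_le_one₀ (hf _ _) (norm_nonneg _) ?_
  split_ifs
  · simp
  · exact hΦ _ _ _

lemma AA_MG {k : ℕ} {w : ℕ} {f : Fin k → ℕ → ℂ} {Φ : Fin k → ℕ → ℕ → ℂ} (hf : ∀ j n, ‖f j n‖ ≤ 1)
    (hm : ∀ j (m n : ℕ), m.Coprime n → f j (m * n) = f j m * f j n)
    (hΦ : ∀ j l r, ‖Φ j l r‖ ≤ 1) (l : ℕ) : MG (AA w f Φ l) f (AA w f Φ (l + 1)) 0 w := by
  refine ⟨AA_norm hf hΦ l, AA_norm hf hΦ (l + 1), fun i p _ _ _ => hf i p, ?_⟩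
  intro i p hp _ hpw m hpm
  have h1 : ¬ p ∣ m.natAbs := fun h2 => hpm (Int.natCast_dvd.mpr h2)
  unfold AA
  rw [Int.natAbs_mul, Int.natAbs_natCast, cnt_mul hp hpw h1, rst_mul hp hpw h1,
    hm _ _ _ ((Nat.Prime.coprime_iff_not_dvd hp).mpr h1), if_neg (by omega), if_neg (by omega),
    mul_assoc]
  congr 4
  omega

/-- the difference of the correlation sums -/
noncomputable def dif {k : ℕ} (a : Fin k → ℕ) (b : Fin k → ℤ) (w : ℕ) (f : Fin k → ℕ → ℂ)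
    (Φ : Fin k → ℕ → ℕ → ℂ) (y : ℕ) : ℂ :=
  ∑ n ∈ Icc 1 y,
    ((∏ j, f j ((a j : ℤ) * n + b j).natAbs * Φ j (cnt w ((a j : ℤ) * n + b j).natAbs)
        (rst w ((a j : ℤ) * n + b j).natAbs)) -
      ∏ j, f j ((a j : ℤ) * n + b j).natAbs * Φ j (cnt w ((a j : ℤ) * n + b j).natAbs + 1)
        (rst w ((a j : ℤ) * n + b j).natAbs))

lemma dif_eq {k : ℕ} (a : Fin k → ℕ) (b : Fin k → ℤ) (w : ℕ) (f : Fin k → ℕ → ℂ)
    (Φ : Fin k → ℕ → ℕ → ℂ) (y : ℕ) :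
    SS a b (AA w f Φ 1) y - SS a b (AA w f Φ 2) y = dif a b w f Φ y := by
  unfold Pool.Agent.N781.E.SS dif
  rw [← Finset.sum_sub_distrib]
  refine sum_congr rfl fun n _ => ?_
  unfold AA
  congr 1

lemma dif_norm {k : ℕ} {a : Fin k → ℕ} {b : Fin k → ℤ} {w : ℕ} {f : Fin k → ℕ → ℂ}
    {Φ : Fin k → ℕ → ℕ → ℂ} (hf : ∀ j n, ‖f j n‖ ≤ 1) (hΦ : ∀ j l r, ‖Φ j l r‖ ≤ 1) (y : ℕ) :
    ‖dif a b w f Φ y‖ ≤ 2 * y := by
  unfold dif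
  refine (norm_sum_le _ _).trans ?_
  have h1 : ∀ n ∈ Icc 1 y, ‖(∏ j, f j ((a j : ℤ) * n + b j).natAbs *
      Φ j (cnt w ((a j : ℤ) * n + b j).natAbs) (rst w ((a j : ℤ) * n + b j).natAbs)) -
      ∏ j, f j ((a j : ℤ) * n + b j).natAbs * Φ j (cnt w ((a j : ℤ) * n + b j).natAbs + 1)
        (rst w ((a j : ℤ) * n + b j).natAbs)‖ ≤ 2 := by
    intro n _
    have h2 : ∀ (c : Fin k → ℂ), (∀ j, ‖c j‖ ≤ 1) → ‖∏ j, c j‖ ≤ 1 := by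
      intro c hc
      rw [norm_prod]
      exact prod_le_one (fun _ _ => norm_nonneg _) fun j _ => hc j
    have h3 : ∀ (u v : ℂ), ‖u‖ ≤ 1 → ‖v‖ ≤ 1 → ‖u * v‖ ≤ 1 := by
      intro u v hu hv
      rw [norm_mul]
      exact mul_le_one₀ hu (norm_nonneg _) hv
    refine (norm_sub_le _ _).trans ?_
    have h4 := h2 _ (fun j => h3 _ _ (hf j ((a j : ℤ) * n + b j).natAbs)
      (hΦ j (cnt w ((a j : ℤ) * n + b j).natAbs) (rst w ((a j : ℤ) * n + b j).natAbs)))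
    have h5 := h2 _ (fun j => h3 _ _ (hf j ((a j : ℤ) * n + b j).natAbs)
      (hΦ j (cnt w ((a j : ℤ) * n + b j).natAbs + 1) (rst w ((a j : ℤ) * n + b j).natAbs)))
    linarith
  refine (sum_le_sum h1).trans (le_of_eq ?_)
  rw [sum_const, nsmul_eq_mul, Nat.card_Icc, Nat.add_sub_cancel]
  ring

/-- the diagonal shift at almost all scales -/
theorem diag (k : ℕ) (a : Fin k → ℕ) (b : Fin k → ℤ) (hk : 0 < k) (ha : ∀ j, 1 ≤ a j) (ε : ℝ)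
    (hε : 0 < ε) : ∃ w X₀ : ℕ, ∀ X : ℕ, X₀ ≤ X →
      ∀ (f : Fin k → ℕ → ℂ) (Φ : Fin k → ℕ → ℕ → ℂ), (∀ j n, ‖f j n‖ ≤ 1) →
        (∀ j (m n : ℕ), m.Coprime n → f j (m * n) = f j m * f j n) →
        (∀ p : ℕ, p.Prime → p ≤ w → ∏ j, f j p = 1) → (∀ j l r, ‖Φ j l r‖ ≤ 1) →
        ∑ N ∈ Icc 1 X, 1 / (N : ℝ) * (‖dif a b w f Φ N‖ / N) ≤ ε * Real.log X := by
  obtain ⟨C, hC⟩ := om_fixedW k a b hk ha (ε / 6) (by positivity)
  obtain ⟨w, X₀, H⟩ := convW (fun w => {D | ∃ (f : Fin k → ℕ → ℂ) (Φ : Fin k → ℕ → ℕ → ℂ),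
      (∀ j n, ‖f j n‖ ≤ 1) ∧ (∀ j (m n : ℕ), m.Coprime n → f j (m * n) = f j m * f j n) ∧
      (∀ p : ℕ, p.Prime → p ≤ w → ∏ j, f j p = 1) ∧ (∀ j l r, ‖Φ j l r‖ ≤ 1) ∧
      D = fun N => ‖dif a b w f Φ N‖ / N}) 2 (by norm_num) (by
    rintro w _ ⟨f, Φ, hf, hm, h1, hΦ, rfl⟩ N
    refine ⟨by positivity, ?_⟩
    rcases Nat.eq_zero_or_pos N with h0 | h0
    · subst h0
      simp
    · have hN : (0 : ℝ) < N := by exact_mod_cast h0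
      rw [div_le_iff₀ hN]
      exact dif_norm hf hΦ N) (ε / 3) (by positivity) C (by
    intro J
    obtain ⟨W, hW⟩ := hC J
    refine ⟨W, W + 2 ^ (J + 1), fun y hy => ?_⟩
    rintro _ ⟨f, Φ, hf, hm, h1, hΦ, rfl⟩
    have hJ0 : 0 < 2 ^ (J + 1) := by positivity
    have h2 := hW y (by omega) (AA W f Φ 0) (AA W f Φ 1) (AA W f Φ 2) f f
      (AA_MG hf hm hΦ 0) (AA_MG hf hm hΦ 1) h1 h1
    simp only [dif_eq] at h2
    refine le_trans (sum_le_sum_of_subset_of_nonneg ?_ fun _ _ _ => by positivity) h2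
    intro i hi
    rw [mem_filter, mem_Icc] at hi ⊢
    refine ⟨hi.1, ?_⟩
    have h3 := hi.2
    have h2i : (0 : ℝ) < 2 ^ i := by positivity
    have h4 : 2 ^ i ≤ y := le_trans (Nat.pow_le_pow_right (by norm_num) (by omega : i ≤ J + 1))
      (by omega)
    have h5 : 1 ≤ y / 2 ^ i := (Nat.one_le_div_iff (by positivity)).2 h4
    have h6 : (0 : ℝ) < ((y / 2 ^ i : ℕ) : ℝ) := by exact_mod_cast h5
    rw [lt_div_iff₀ h6] at h3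
    have h7 : (y : ℝ) / 2 ^ i ≤ 2 * ((y / 2 ^ i : ℕ) : ℝ) := by
      rw [div_le_iff₀ h2i]
      have h8 := Nat.lt_div_mul_add (a := y) (b := 2 ^ i) (by positivity)
      have h9 : y ≤ 2 * (y / 2 ^ i) * 2 ^ i := by nlinarith
      exact_mod_cast h9
    nlinarith)
  refine ⟨w, X₀, fun X hX f Φ hf hm h1 hΦ => ?_⟩
  have h2 := H X hX _ ⟨f, Φ, hf, hm, h1, hΦ, rfl⟩
  refine h2.trans (le_of_eq ?_)
  ring

/-- the diagonal shift at all but few scales, with whole dyadic intervals -/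
theorem diag_few (k : ℕ) (a : Fin k → ℕ) (b : Fin k → ℤ) (hk : 0 < k) (ha : ∀ j, 1 ≤ a j) (ε : ℝ)
    (hε : 0 < ε) : ∃ C : ℝ, ∀ J : ℕ, ∃ W : ℕ, ∀ N : ℕ, W ≤ N →
      ∀ (f : Fin k → ℕ → ℂ) (Φ : Fin k → ℕ → ℕ → ℂ), (∀ j n, ‖f j n‖ ≤ 1) →
        (∀ j (m n : ℕ), m.Coprime n → f j (m * n) = f j m * f j n) →
        (∀ p : ℕ, p.Prime → p ≤ W → ∏ j, f j p = 1) → (∀ j l r, ‖Φ j l r‖ ≤ 1) →
        ∑ i ∈ exc (fun y => ‖dif a b W f Φ y‖) ε J N, 1 / (i : ℝ) ≤ C := by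
  obtain ⟨C, hC⟩ := om_excW k a b hk ha ε hε
  refine ⟨C, fun J => ?_⟩
  obtain ⟨W, hW⟩ := hC J
  refine ⟨W, fun N hN f Φ hf hm h1 hΦ => ?_⟩
  have h2 := hW N hN (AA W f Φ 0) (AA W f Φ 1) (AA W f Φ 2) f f
    (AA_MG hf hm hΦ 0) (AA_MG hf hm hΦ 1) h1 h1
  simp only [dif_eq] at h2
  exact h2

/-- the characters of the number of the small primes -/
theorem diag_char (k : ℕ) (a : Fin k → ℕ) (b : Fin k → ℤ) (hk : 0 < k) (ha : ∀ j, 1 ≤ a j) (ε : ℝ)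
    (hε : 0 < ε) : ∃ w X₀ : ℕ, ∀ X : ℕ, X₀ ≤ X →
      ∀ (f : Fin k → ℕ → ℂ) (z : Fin k → ℂ) (B : Fin k → ℕ → ℂ), (∀ j n, ‖f j n‖ ≤ 1) →
        (∀ j (m n : ℕ), m.Coprime n → f j (m * n) = f j m * f j n) →
        (∀ p : ℕ, p.Prime → p ≤ w → ∏ j, f j p = 1) → (∀ j, ‖z j‖ ≤ 1) → (∀ j r, ‖B j r‖ ≤ 1) →
        ‖∏ j, z j - 1‖ * ∑ N ∈ Icc 1 X, 1 / (N : ℝ) * (‖∑ n ∈ Icc 1 N,
          ∏ j, f j ((a j : ℤ) * n + b j).natAbs * (z j ^ cnt w ((a j : ℤ) * n + b j).natAbs *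
            B j (rst w ((a j : ℤ) * n + b j).natAbs))‖ / N) ≤ ε * Real.log X := by
  obtain ⟨w, X₀, H⟩ := diag k a b hk ha ε hε
  refine ⟨w, X₀, fun X hX f z B hf hm h1 hz hB => ?_⟩
  have h2 := H X hX f (fun j l r => z j ^ l * B j r) hf hm h1 (fun j l r => by
    rw [norm_mul, norm_pow]
    exact mul_le_one₀ (pow_le_one₀ (norm_nonneg _) (hz j)) (norm_nonneg _) (hB j r))
  refine le_trans (le_of_eq ?_) h2
  rw [mul_sum]
  refine sum_congr rfl fun N _ => ?_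
  have h3 : dif a b w f (fun j l r => z j ^ l * B j r) N = -((∏ j, z j - 1) * ∑ n ∈ Icc 1 N,
      ∏ j, f j ((a j : ℤ) * n + b j).natAbs * (z j ^ cnt w ((a j : ℤ) * n + b j).natAbs *
        B j (rst w ((a j : ℤ) * n + b j).natAbs))) := by
    unfold dif
    rw [mul_sum, ← sum_neg_distrib]
    refine sum_congr rfl fun n _ => ?_
    have h4 : ∏ j, f j ((a j : ℤ) * n + b j).natAbs *
        (z j ^ (cnt w ((a j : ℤ) * n + b j).natAbs + 1) *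
          B j (rst w ((a j : ℤ) * n + b j).natAbs)) = (∏ j, z j) *
        ∏ j, f j ((a j : ℤ) * n + b j).natAbs * (z j ^ cnt w ((a j : ℤ) * n + b j).natAbs *
          B j (rst w ((a j : ℤ) * n + b j).natAbs)) := by
      rw [← prod_mul_distrib]
      refine prod_congr rfl fun j _ => ?_
      rw [pow_succ]
      ring
    rw [h4]
    ring
  rw [h3, norm_neg, norm_mul]
  ring

end Pool.Agent.Run7.h348.EF
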