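import Mathlib
import Pool.Agent.N781.OM.Fin

/-! The structure theorem of N781.OM for functions which are equivariant with respect to the small
primes only. -/

namespace Pool.Agent.Run7.h348.EF

open Finset Pool.Agent.N675 Pool.Agent.N781.FV Pool.Agent.N781.A Pool.Agent.N781.A.R Pool.Agent.N781.S
  Pool.Agent.N781.OM Filter Topology

lemma MG_mono {ι : Type} {F G : ι → ℤ → ℂ} {g : ι → ℕ → ℂ} {P0 T T' : ℕ} (h : MG F g G P0 T')
    (hT : T ≤ T') : MG F g G P0 T :=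
  ⟨h.1, h.2.1, fun i p hp h0 hpT => h.2.2.1 i p hp h0 (hpT.trans hT),
    fun i p hp h0 hpT => h.2.2.2 i p hp h0 (hpT.trans hT)⟩

/-- sequences of correlations -/
structure SgW (ι : Type) [Fintype ι] (a b : ι → ℤ) (U : Ultrafilter ℕ) where
  D : ℕ → ℕ
  x : ℕ → ℕ
  F : ℕ → ι → ℤ → ℂ
  g : ℕ → ι → ℕ → ℂ
  G : ℕ → ι → ℤ → ℂ
  hD : ∀ N, ∀ᶠ j in (U : Filter ℕ), N ≤ D j
  hx : ∀ N, ∀ᶠ j in (U : Filter ℕ), N ≤ x j
  hB : ∀ j i m, ‖F j i m‖ ≤ 1
  hF : ∀ T, ∀ᶠ j in (U : Filter ℕ), MG (F j) (g j) (G j) 0 T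

section

variable {ι : Type} [Fintype ι] {a b : ι → ℤ} {U : Ultrafilter ℕ} (S : SgW ι a b U)

/-- the correlations -/
noncomputable def SgW.c (j : ℕ) : ℤ → ℂ := cc a b (S.F j) (S.x j)

/-- the unstructured part at level `i` -/
noncomputable def SgW.w (i j : ℕ) : ℤ → ℂ := wf i.factorial (S.D j) (S.c j)

lemma SgW.c_norm (j : ℕ) (m : ℤ) : ‖S.c j m‖ ≤ 1 := cc_norm a b _ (S.hB j) _ m

lemma SgW.w_norm (hCE : S_CE) (i j : ℕ) (hD : 0 < S.D j) (m : ℤ) : ‖S.w i j m‖ ≤ 1 :=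
  (hCE i.factorial (S.D j) (S.c j) (Nat.factorial_pos i) hD (S.c_norm j)).2.1 m

lemma SgW.cauchy (hCE : S_CE) (τ : ℝ) (hτ : 0 < τ) : ∃ i₁ : ℕ, ∀ i, i₁ ≤ i →
    ∀ᶠ j in (U : Filter ℕ), avr (S.D j) (fun d => ‖S.w i j d - S.w i₁ j d‖ ^ 2) ≤ τ := by
  by_contra hcon
  push Not at hcon
  have key : ∀ n : ℕ, ∃ i : ℕ, ∀ᶠ j in (U : Filter ℕ),
      4 * τ * n ≤ avr (S.D j) (fun d => ‖St i.factorial (S.D j) (S.c j) d‖ ^ 2) := by
    intro n
    induction n with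
    | zero =>
      refine ⟨0, Eventually.of_forall fun j => ?_⟩
      rw [Nat.cast_zero, mul_zero]
      exact avr_nonneg _ _ fun _ _ _ => by positivity
    | succ n ih =>
      obtain ⟨i₁, hi₁⟩ := ih
      obtain ⟨i, hi, hni⟩ := hcon i₁
      refine ⟨i, ?_⟩
      filter_upwards [hi₁, hni, S.hD 1] with j h2 h3 h4
      have h5 := ((hCE i₁.factorial (S.D j) (S.c j) (Nat.factorial_pos _) (by omega)
        (S.c_norm j)).2.2.2.2 i.factorial (Nat.factorial_pos _) (Nat.factorial_dvd_factorial hi)).1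
      unfold SgW.w at h3
      rw [h5] at h3
      push_cast
      linarith
  obtain ⟨n, hn⟩ := exists_nat_gt (1 / (4 * τ))
  obtain ⟨i, hi⟩ := key n
  obtain ⟨j, hj, hj1⟩ := (hi.and (S.hD 1)).exists
  have h1 : avr (S.D j) (fun d => ‖St i.factorial (S.D j) (S.c j) d‖ ^ 2) ≤ 1 := by
    refine (avr_le _ _ (fun _ => 1) fun d _ _ => ?_).trans (avr_const_le _ 1 zero_le_one)
    exact pow_le_one₀ (norm_nonneg _)
      ((hCE i.factorial (S.D j) (S.c j) (Nat.factorial_pos i) (by omega) (S.c_norm j)).1 d)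
  rw [div_lt_iff₀ (by positivity)] at hn
  linarith

/-- The unstructured parts have no large Fourier coefficients in the limit. -/
lemma SgW.fin (hCE : S_CE) (hMaj : S_STMAJ) (hSm : S_WSMALL) (ha : ∀ i, a i ≠ 0) [DecidableEq ι]
    (δ' : ℝ) (hδ : 0 < δ') (hδ1 : δ' ≤ 1) : ∃ i₀ : ℕ, ∀ i, i₀ ≤ i →
      ¬ ∀ᶠ j in (U : Filter ℕ), ∃ (D' : ℕ) (θ : ℝ), δ' * S.D j ≤ D' ∧
        δ' ≤ ‖av D' fun d => S.w i j d * eR (d * θ)‖ := by
  obtain ⟨i₁, hi₁⟩ := S.cauchy hCE ((δ' * (δ' / 2)) ^ 2) (by positivity)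
  obtain ⟨T, Q₁, K₁, hmin⟩ := minorG2 (fm a b) (fun i h => ha i (by
    have := congrFun h true
    simpa [fm] using this)) (δ' / 4) (by positivity) 0
  obtain ⟨Q₂, hQ₂⟩ := hMaj i₁.factorial (δ' / 2) (Nat.factorial_pos _) (by positivity)
  obtain ⟨Q₃, hQ₃⟩ := exists_nat_ge (Q₁ / δ' + Q₁ + Q₂)
  obtain ⟨i₀, hi₀⟩ := hSm Q₃ δ' hδ
  refine ⟨max i₀ i₁, fun i hi hcon => ?_⟩
  obtain ⟨K₃, hK₃⟩ := exists_nat_ge (K₁ / δ' + 1)
  obtain ⟨j, ⟨D', θ, h1, h2⟩, h3, h4, h5, hFT⟩ := (hcon.and ((hi₁ i (le_trans (le_max_right _ _) hi)).and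
    ((S.hD (K₃ + 1)).and ((S.hx (K₁ + 1)).and (S.hF T))))).exists
  have hD0 : 0 < S.D j := by omega
  have hDR : (0 : ℝ) < S.D j := by exact_mod_cast hD0
  obtain ⟨D'', hDD, h6, h7⟩ := trunc (S.D j) D' (S.w i j) (fun d hd => by
    unfold SgW.w wf
    rw [if_neg (by omega)]) θ δ' hδ1 hD0 h1 h2
  have hK1D : K₁ ≤ D'' := by
    have e1 : (K₃ : ℝ) ≤ S.D j := by exact_mod_cast (by omega : K₃ ≤ S.D j)
    have e2 : K₁ / δ' ≤ S.D j := by linarith
    rw [div_le_iff₀ hδ] at e2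
    have e3 : (K₁ : ℝ) ≤ D'' := by linarith
    exact_mod_cast e3
  have h8 := av_diff (S.D j) D'' (S.w i j) (S.w i₁ j) θ δ' (δ' / 2) hδ hD0 hDD h6 (by positivity) h3
  have h9 : δ' / 2 ≤ ‖av D'' fun d => S.w i₁ j d * eR (d * θ)‖ := by
    have := norm_sub_norm_le (av D'' fun d => S.w i j d * eR (d * θ))
      (av D'' fun d => S.w i₁ j d * eR (d * θ))
    linarith
  have hmaj : ∃ q : ℕ, 1 ≤ q ∧ q ≤ Q₃ ∧ ∃ n : ℤ, |(q : ℝ) * θ - n| ≤ (Q₃ : ℝ) / S.D j := by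
    have hQ₃1 : Q₁ ≤ Q₃ ∧ Q₂ ≤ Q₃ ∧ (Q₁ : ℝ) / δ' ≤ Q₃ ∧ (Q₂ : ℝ) ≤ Q₃ := by
      have e1 : (0 : ℝ) ≤ Q₁ / δ' := by positivity
      have e2 : (0 : ℝ) ≤ Q₁ := Nat.cast_nonneg _
      have e3 : (0 : ℝ) ≤ Q₂ := Nat.cast_nonneg _
      have e4 : (Q₁ : ℝ) ≤ Q₃ := by linarith
      have e5 : (Q₂ : ℝ) ≤ Q₃ := by linarith
      exact ⟨by exact_mod_cast e4, by exact_mod_cast e5, by linarith, e5⟩
    unfold SgW.w at h9
    rw [av_wf _ _ _ _ _ hDD, norm_div] at h9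
    have e0 : ‖(2 : ℂ)‖ = 2 := by norm_num
    rw [e0] at h9
    have h10 := norm_sub_le (av D'' fun d => S.c j d * eR (d * θ))
      (av D'' fun d => St i₁.factorial (S.D j) (S.c j) d * eR (d * θ))
    by_cases h11 : δ' / 2 ≤ ‖av D'' fun d => St i₁.factorial (S.D j) (S.c j) d * eR (d * θ)‖
    · obtain ⟨q, hq1, hq2, n, hn⟩ := hQ₂ (S.D j) D'' θ (S.c j) (S.c_norm j) hD0 hDD
        (le_trans (mul_le_mul_of_nonneg_right (by linarith) hDR.le) h6) h11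
      refine ⟨q, hq1, by omega, n, hn.trans ?_⟩
      exact div_le_div_of_nonneg_right hQ₃1.2.2.2 hDR.le
    · push Not at h11
      have h12 : δ' / 4 < ‖av D'' fun d => S.c j d * eR (d * θ)‖ := by linarith
      unfold SgW.c at h12
      rw [av_eq_TF] at h12
      obtain ⟨q, hq1, hq2, hq3⟩ := hmin (fun t : Bool => if t then S.x j else D'')
        (fun t => by cases t <;> simp <;> omega) (S.F j) (S.G j) (S.g j) hFT
        (fun t => if t then 0 else θ) h12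
      refine ⟨q, hq1, by omega, _, (hq3 false).trans ?_⟩
      simp only [Bool.false_eq_true, if_false]
      have hD''R : (0 : ℝ) < D'' := lt_of_lt_of_le (by positivity) h6
      rw [div_le_div_iff₀ hD''R hDR]
      calc (Q₁ : ℝ) * S.D j = Q₁ / δ' * (δ' * S.D j) := by field_simp
        _ ≤ Q₁ / δ' * D'' := by gcongr
        _ ≤ Q₃ * D'' := by gcongr; exact hQ₃1.2.2.1
  have h13 := hi₀ i.factorial (Nat.factorial_pos _)
    (Nat.factorial_dvd_factorial (le_trans (le_max_left _ _) hi)) (S.D j) D'' θ (S.c j)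
    (S.c_norm j) hD0 hDD h6 hmaj
  unfold SgW.w at h7
  linarith

/-- the unstructured parts have small box norms with `m` windows -/
def SgW.CL (m : ℕ) : Prop :=
  ∀ s : ℕ, 0 < s → ∀ δ : ℝ, 0 < δ → δ ≤ 1 → ∃ η₀ : ℝ, 0 < η₀ ∧ ∀ η : ℝ, 0 < η → η ≤ η₀ →
    ∃ i₀ : ℕ, ∀ i, i₀ ≤ i →
      ¬ ∀ᶠ j in (U : Filter ℕ), δ ≤ NN (S.D j) (List.replicate m (s, ⌊η * S.D j⌋₊)) (S.w i j)

lemma SgW.large (C : ℝ) : ∀ᶠ j in (U : Filter ℕ), C ≤ (S.D j : ℝ) := by
  obtain ⟨N, hN⟩ := exists_nat_ge C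
  filter_upwards [S.hD N] with j hj
  exact hN.trans (by exact_mod_cast hj)

lemma SgW.CL_one (hCE : S_CE) (hMaj : S_STMAJ) (hSm : S_WSMALL) (ha : ∀ i, a i ≠ 0)
    [DecidableEq ι] : S.CL 1 := by
  intro s hs δ hδ hδ1
  refine ⟨1, one_pos, fun η hη hη1 => ?_⟩
  have hs0 : (0 : ℝ) < s := by exact_mod_cast hs
  set δ' : ℝ := δ * η / (4 * (1 + s)) with hδ'
  have hδ'0 : 0 < δ' := by positivity
  have hδ'1 : δ' ≤ 1 := by
    rw [hδ', div_le_one (by positivity)]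
    nlinarith
  obtain ⟨i₀, hi₀⟩ := S.fin hCE hMaj hSm ha δ' hδ'0 hδ'1
  refine ⟨i₀, fun i hi hcon => hi₀ i hi ?_⟩
  filter_upwards [hcon, S.hD 1, S.large (2 / η)] with j h1 h2 h3
  rw [div_le_iff₀ hη] at h3
  exact one_four (S.D j) s hs (S.w i j) (S.w_norm hCE i j (by omega)) δ η hδ hη hη1
    (by linarith) h1

lemma SgW.CL_two (hP : S_PERM) (hMo : S_MONO) (hU : S_U2) (hCE : S_CE) (hMaj : S_STMAJ)
    (hSm : S_WSMALL) (ha : ∀ i, a i ≠ 0) [DecidableEq ι] : S.CL 2 := by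
  intro s hs δ hδ hδ1
  have hs0 : (0 : ℝ) < s := by exact_mod_cast hs
  have hs1 : (1 : ℝ) ≤ s := by exact_mod_cast hs
  refine ⟨δ / (64 * s), by positivity, fun η hη hη0 => ?_⟩
  have hη1 : η ≤ 1 := by
    refine hη0.trans ((div_le_one (by positivity)).mpr ?_)
    nlinarith
  set δ' : ℝ := (δ * η / 32) * (δ * η / 6400) / (4 * (1 + s)) with hδ'
  have hδ'0 : 0 < δ' := by positivity
  have hδη : δ * η ≤ 1 := by nlinarith
  have hδ'1 : δ' ≤ 1 := by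
    rw [hδ', div_le_one (by positivity)]
    have : 0 < δ * η := by positivity
    nlinarith
  obtain ⟨i₀, hi₀⟩ := S.fin hCE hMaj hSm ha δ' hδ'0 hδ'1
  refine ⟨i₀, fun i hi hcon => hi₀ i hi ?_⟩
  filter_upwards [hcon, S.hD 1, S.large (2 / η), S.large (2 / (δ * η / 6400))] with j h1 h2 h3 h4
  rw [div_le_iff₀ hη] at h3
  rw [div_le_iff₀ (by positivity)] at h4
  exact two_four hP hMo hU s hs δ η hδ hδ1 hη hη0 (S.D j) (by linarith) (by linarith)
    (S.w i j) (S.w_norm hCE i j (by omega)) h1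

end

section

variable {ι : Type} [Fintype ι] {a b : ι → ℤ} {U : Ultrafilter ℕ} (S : SgW ι a b U)

lemma SgW.CL_succ [DecidableEq ι] (hE : S_ENG2) (hP : S_PERM) (hMo : S_MONO) (hPh : S_PHASE)
    (hSh : S_SHAPE) (hU : S_U2) (hCE : S_CE) (hD1 : S_DIL1) (hD2 : S_DIL2) (hFam : S_FAM2)
    (ha : ∀ i, a i ≠ 0) (n : ℕ) (hn : 0 < n) (h : S.CL (n + 1)) : S.CL (n + 2) := by
  classical
  intro s hs δ hδ hδ1
  obtain ⟨Z, I, _, _, _, _, _, φ, σ, hshape⟩ := hSh n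
  have hs0 : (0 : ℝ) < s := by exact_mod_cast hs
  have hs1 : (1 : ℝ) ≤ s := by exact_mod_cast hs
  have hn0 : (0 : ℝ) ≤ n := Nat.cast_nonneg _
  refine ⟨δ / (64 * ((n : ℝ) + 2) * s), by positivity, fun η hη hη0 => ?_⟩
  have hη1 : η ≤ 1 := by
    refine hη0.trans ((div_le_one (by positivity)).mpr ?_)
    nlinarith
  obtain ⟨τ, κ₁, hτ, hκ₁, heng⟩ := hE Z I φ σ s hs (δ * η / 64) (δ / 4) (by positivity)
    (by nlinarith) (by positivity) (by linarith)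
  set τ₁ : ℝ := τ / 64 with hτ₁
  have hτ₁0 : 0 < τ₁ := by positivity
  obtain ⟨i₁, hi₁⟩ := S.cauchy hCE τ₁ hτ₁0
  obtain ⟨κF, hκF0, hκF1, N, P0, hfam⟩ := hFam ι a b ha i₁.factorial τ₁ (Nat.factorial_pos _) hτ₁0
  set κ : ℝ := min (min κF κ₁) (1 / 6) with hκ
  have hκ0 : 0 < κ := by positivity
  have hκF : κ ≤ κF := (min_le_left _ _).trans (min_le_left _ _)
  have hκκ : κ ≤ κ₁ := (min_le_left _ _).trans (min_le_right _ _)
  have hκ6 : κ ≤ 1 / 6 := min_le_right _ _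
  set ε₁ : ℝ := δ / 4 * τ₁ / 32 with hε₁
  have hε₁0 : 0 < ε₁ := by positivity
  obtain ⟨C₁, hC₁⟩ := hD1 ε₁ hε₁0
  obtain ⟨C₂, hC₂⟩ := hD2 ι a b ha ε₁ hε₁0
  obtain ⟨BL, cl, PP, P₁, δ₁, c₀, Ke, hδ₁, hc₀, hBL, hmain⟩ := heng κ hκ0 hκκ N (P0 + 5)
    (C₁ / τ₁ + C₂ / τ₁)
  have hprime : ∀ p ∈ BL.biUnion cl, p.Prime := by
    intro p hp
    obtain ⟨b, hb, hpb⟩ := Finset.mem_biUnion.mp hp
    exact ((hBL b hb).2 p hpb).1
  have hex : ∀ b', ∃ K : ℕ, b' ∈ BL → ∀ D x : ℕ, K ≤ D → K ≤ x →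
      ∀ (F G : ι → ℤ → ℂ) (g : ι → ℕ → ℂ) (P00 T : ℕ), MG F g G P00 T →
      ∃ 𝓕 : Fin N → ℤ → ℂ, (∀ n m, ‖𝓕 n m‖ ≤ 1) ∧
        ∀ q : ℕ, q.Prime → PP b' ≤ q → (q : ℝ) ≤ (1 + κF) * (PP b' + 1) → P00 ≤ q → q ≤ T →
          avr (D / q) (fun d =>
            ‖cc a b F x ((q : ℤ) * d) - cc a b (fun i m => F i ((q : ℤ) * m)) (x / q) d‖ ^ 2) ≤ τ₁ →
          ∃ n : Fin N, avr (D / PP b') (fun d => ‖wf i₁.factorial D (cc a b F x) ((q : ℤ) * d)
            - 𝓕 n d‖ ^ 2) ≤ 4 * τ₁ := by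
    intro b'
    by_cases hb : b' ∈ BL
    · obtain ⟨K, hK⟩ := hfam (PP b') (by have := (hBL b' hb).1; omega)
      exact ⟨K, fun _ => hK⟩
    · exact ⟨0, fun h => absurd h hb⟩
  choose Kb hKb using hex
  obtain ⟨K1, hK1⟩ := hC₁ (BL.biUnion cl) hprime
  obtain ⟨K2, hK2⟩ := hC₂ (BL.biUnion cl) hprime
  obtain ⟨η₁, hη₁, hst⟩ := step2 hP hMo hPh hU Z I φ σ n hshape s hn hs δ hδ hδ1 η hη hη0 P₁ δ₁ c₀
    Ke hδ₁ hc₀
  -- the next stage for every `q`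
  have hex : ∀ q : ℕ, ∃ ηq : ℝ, 0 < ηq ∧ (0 < q → ∀ η : ℝ, 0 < η → η ≤ ηq →
      ∃ i₀ : ℕ, ∀ i, i₀ ≤ i → ¬ ∀ᶠ j in (U : Filter ℕ), min (δ₁ / 2) 1 ≤
        NN (S.D j) (List.replicate (n + 1) (s * q, ⌊η * S.D j⌋₊)) (S.w i j)) := by
    intro q
    by_cases hq : 0 < q
    · obtain ⟨ηq, h1, h2⟩ := h (s * q) (Nat.mul_pos hs hq) (min (δ₁ / 2) 1)
        (lt_min (by positivity) one_pos) (min_le_right _ _)
      exact ⟨ηq, h1, fun _ => h2⟩
    · exact ⟨1, one_pos, fun h => absurd h hq⟩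
  choose ηf hηf hηf2 using hex
  set R := Finset.Icc 1 P₁ with hR
  set η' : ℝ := min η₁ (1 / (∑ q ∈ R, 1 / ηf q + 1)) with hη'
  have hsum0 : 0 ≤ ∑ q ∈ R, 1 / ηf q := Finset.sum_nonneg fun q _ => (one_div_pos.mpr (hηf q)).le
  have hη'0 : 0 < η' := lt_min hη₁ (by positivity)
  have hη'q : ∀ q ∈ R, η' ≤ ηf q := fun q hq =>
    (min_le_right _ _).trans (inv_sum_le ηf (fun i _ => hηf i) hq)
  have hex2 : ∀ q : ℕ, ∃ i₀ : ℕ, q ∈ R → ∀ i, i₀ ≤ i → ¬ ∀ᶠ j in (U : Filter ℕ),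
      min (δ₁ / 2) 1 ≤ NN (S.D j) (List.replicate (n + 1) (s * q, ⌊η' * S.D j⌋₊)) (S.w i j) := by
    intro q
    by_cases hq : q ∈ R
    · obtain ⟨i₀, hi₀⟩ := hηf2 q (by rw [hR, Finset.mem_Icc] at hq; omega) η' hη'0 (hη'q q hq)
      exact ⟨i₀, fun _ => hi₀⟩
    · exact ⟨0, fun h => absurd h hq⟩
  choose If hIf using hex2
  obtain ⟨K₀, hK₀⟩ := hst η' hη'0 (min_le_left _ _)
  refine ⟨i₁ + ∑ q ∈ R, If q, fun i hi hcon => ?_⟩
  have hkey : ∀ᶠ j in (U : Filter ℕ), ∃ q ∈ (↑R : Set ℕ), min (δ₁ / 2) 1 ≤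
      NN (S.D j) (List.replicate (n + 1) (s * q, ⌊η' * S.D j⌋₊)) (S.w i j) := by
    filter_upwards [hcon, hi₁ i (by omega), S.hD (K₀ + K1 + K2 + ∑ b ∈ BL, Kb b + 12 * P₁ + 1),
      S.hx (K2 + ∑ b ∈ BL, Kb b), S.hF P₁] with j h1 h2 h3 h4 hFP
    have hDpos : 0 < S.D j := by omega
    have hw := S.w_norm hCE i j hDpos
    have hw1 := S.w_norm hCE i₁ j hDpos
    obtain ⟨q, hq1, hqP, hq⟩ := hK₀ (S.D j) (by omega) (S.w i j) hw (by
      intro H hKeD hKeH hHc hprop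
      -- the exceptional primes
      set f : ℤ → ℝ := fun m => ‖S.w i j m - S.w i₁ j m‖ ^ 2 / 4 with hf
      have hf01 : ∀ m, 0 ≤ f m ∧ f m ≤ 1 := by
        intro m
        refine ⟨by positivity, ?_⟩
        have e1 := norm_sub_le (S.w i j m) (S.w i₁ j m)
        have e2 := hw m
        have e3 := hw1 m
        have e4 : ‖S.w i j m - S.w i₁ j m‖ ≤ 2 := by linarith
        rw [hf]
        simp only
        rw [div_le_one (by norm_num)]
        have := norm_nonneg (S.w i j m - S.w i₁ j m)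
        nlinarith
      set A1 : ℕ → ℝ := fun p => |avr (S.D j / p) (fun d => f ((p : ℤ) * d)) - avr (S.D j) f|
        with hA1
      set A2 : ℕ → ℝ := fun p => avr (S.D j / p) (fun d =>
        ‖cc a b (S.F j) (S.x j) ((p : ℤ) * d)
          - cc a b (fun i m => S.F j i ((p : ℤ) * m)) (S.x j / p) d‖ ^ 2) with hA2
      have hA10 : ∀ p, 0 ≤ A1 p := fun p => abs_nonneg _
      have hA20 : ∀ p, 0 ≤ A2 p := fun p => avr_nonneg _ _ fun _ _ _ => by positivity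
      have hsum1 := hK1 (S.D j) (by omega) f hf01
      have hsum2 := hK2 (S.D j) (S.x j) (by omega) (by omega) (S.F j) (S.hB j)
      refine hmain (S.D j) H H hKeD hKeH hKeH hHc hHc (S.w i j) hw
        (fun p => τ₁ < A1 p ∨ τ₁ < A2 p) ?_ ?_ hprop
      · have e1 : ∑ p ∈ (BL.biUnion cl).filter (fun p => τ₁ < A1 p ∨ τ₁ < A2 p), 1 / (p : ℝ)
            ≤ ∑ p ∈ BL.biUnion cl, (1 / (p : ℝ)) * ((A1 p + A2 p) / τ₁) := by
          rw [Finset.sum_filter]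
          refine Finset.sum_le_sum fun p _ => ?_
          have hp0 : 0 ≤ 1 / (p : ℝ) := by positivity
          split_ifs with hEp
          · have e2 : 1 ≤ (A1 p + A2 p) / τ₁ := by
              rw [le_div_iff₀ hτ₁0, one_mul]
              have := hA10 p
              have := hA20 p
              rcases hEp with h | h <;> linarith
            exact le_mul_of_one_le_right hp0 e2
          · exact mul_nonneg hp0 (div_nonneg (add_nonneg (hA10 p) (hA20 p)) hτ₁0.le)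
        have e2 : ∑ p ∈ BL.biUnion cl, (1 / (p : ℝ)) * ((A1 p + A2 p) / τ₁)
            = (∑ p ∈ BL.biUnion cl, (1 / (p : ℝ)) * A1 p) / τ₁
              + (∑ p ∈ BL.biUnion cl, (1 / (p : ℝ)) * A2 p) / τ₁ := by
          rw [Finset.sum_div, Finset.sum_div, ← Finset.sum_add_distrib]
          exact Finset.sum_congr rfl fun p _ => by ring
        have e3 : (∑ p ∈ BL.biUnion cl, (1 / (p : ℝ)) * A1 p) / τ₁
            ≤ (C₁ + ε₁ * ∑ p ∈ BL.biUnion cl, 1 / (p : ℝ)) / τ₁ :=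
          div_le_div_of_nonneg_right hsum1 hτ₁0.le
        have e4 : (∑ p ∈ BL.biUnion cl, (1 / (p : ℝ)) * A2 p) / τ₁
            ≤ (C₂ + ε₁ * ∑ p ∈ BL.biUnion cl, 1 / (p : ℝ)) / τ₁ :=
          div_le_div_of_nonneg_right hsum2 hτ₁0.le
        rw [e2] at e1
        have e5 : (C₁ + ε₁ * ∑ p ∈ BL.biUnion cl, 1 / (p : ℝ)) / τ₁
            + (C₂ + ε₁ * ∑ p ∈ BL.biUnion cl, 1 / (p : ℝ)) / τ₁
            = C₁ / τ₁ + C₂ / τ₁ + δ / 4 / 16 * ∑ p ∈ BL.biUnion cl, 1 / (p : ℝ) := by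
          rw [hε₁]
          field_simp
          ring
        have e6 := e1.trans (add_le_add e3 e4)
        rw [e5] at e6
        convert e6
        rfl
      · intro b' hb'
        obtain ⟨hb1, hb2⟩ := hBL b' hb'
        have hKbb : Kb b' ≤ ∑ b ∈ BL, Kb b := Finset.single_le_sum (fun _ _ => Nat.zero_le _) hb'
        obtain ⟨𝓕, h𝓕1, h𝓕⟩ := hKb b' hb' (S.D j) (S.x j) (by omega) (by omega) (S.F j) (S.G j) (S.g j) 0 P₁
          hFP
        refine ⟨𝓕, h𝓕1, fun p hp hEp => ?_⟩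
        obtain ⟨hp1, hp2, hp3, hp4⟩ := hb2 p hp
        push Not at hEp
        obtain ⟨hE1, hE2⟩ := hEp
        have hPPR : (5 : ℝ) ≤ PP b' := by exact_mod_cast (by omega : 5 ≤ PP b')
        obtain ⟨m, hm⟩ := h𝓕 p hp1 hp2 (hp3.trans (by gcongr)) (Nat.zero_le _) hp4 hE2
        refine ⟨m, ?_⟩
        have hp5 : 2 * p ≤ 3 * PP b' := by
          have e1 : (p : ℝ) ≤ (1 + 1 / 6) * (PP b' + 1) := hp3.trans (by gcongr)
          have e2 : (2 : ℝ) * p ≤ 3 * PP b' := by linarith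
          exact_mod_cast e2
        have e1 : avr (S.D j / p) (fun d => ‖S.w i j ((p : ℤ) * d) - S.w i₁ j ((p : ℤ) * d)‖ ^ 2)
            ≤ 5 * τ₁ := by
          have e2 : avr (S.D j / p) (fun d => ‖S.w i j ((p : ℤ) * d) - S.w i₁ j ((p : ℤ) * d)‖ ^ 2)
              = 4 * avr (S.D j / p) (fun d => f ((p : ℤ) * d)) := by
            rw [← avr_mul_left]
            congr 1
            funext d
            rw [hf]
            ring
          have e3 : avr (S.D j) (fun d => ‖S.w i j d - S.w i₁ j d‖ ^ 2) = 4 * avr (S.D j) f := by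
            rw [← avr_mul_left]
            congr 1
            funext d
            rw [hf]
            ring
          rw [e2]
          rw [e3] at h2
          have e4 := (abs_le.mp hE1).2
          linarith
        have e2 : avr (S.D j / p) (fun d => ‖S.w i₁ j ((p : ℤ) * d) - 𝓕 m d‖ ^ 2)
            ≤ 2 * (4 * τ₁) := by
          refine (avr_scale (S.D j) (PP b') p _ (fun _ => by positivity) (by omega) hp2 hp5 ?_).trans
            ?_
          · have : PP b' ≤ P₁ := hp2.trans hp4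
            omega
          · gcongr
            exact hm
        calc avr (S.D j / p) (fun d => ‖S.w i j ((p : ℤ) * d) - 𝓕 m d‖ ^ 2)
            ≤ avr (S.D j / p) (fun d =>
                2 * ‖S.w i j ((p : ℤ) * d) - S.w i₁ j ((p : ℤ) * d)‖ ^ 2
                + 2 * ‖S.w i₁ j ((p : ℤ) * d) - 𝓕 m d‖ ^ 2) := by
              refine avr_le _ _ _ fun d _ _ => ?_
              have e3 := norm_add_le (S.w i j ((p : ℤ) * d) - S.w i₁ j ((p : ℤ) * d))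
                (S.w i₁ j ((p : ℤ) * d) - 𝓕 m d)
              rw [sub_add_sub_cancel] at e3
              have e4 := norm_nonneg (S.w i j ((p : ℤ) * d) - 𝓕 m d)
              nlinarith [sq_nonneg (‖S.w i j ((p : ℤ) * d) - S.w i₁ j ((p : ℤ) * d)‖
                - ‖S.w i₁ j ((p : ℤ) * d) - 𝓕 m d‖)]
          _ = 2 * avr (S.D j / p) (fun d => ‖S.w i j ((p : ℤ) * d) - S.w i₁ j ((p : ℤ) * d)‖ ^ 2)
              + 2 * avr (S.D j / p) (fun d => ‖S.w i₁ j ((p : ℤ) * d) - 𝓕 m d‖ ^ 2) := by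
              rw [avr_add, avr_mul_left, avr_mul_left]
          _ ≤ 2 * (5 * τ₁) + 2 * (2 * (4 * τ₁)) := by gcongr
          _ ≤ τ := by rw [hτ₁]; linarith) h1
    exact ⟨q, by rw [hR]; simp; omega, (min_le_left _ _).trans hq⟩
  obtain ⟨q, hqR, hq⟩ := (Ultrafilter.eventually_exists_mem_iff (Finset.finite_toSet R)).1 hkey
  have hqR' : q ∈ R := hqR
  have hIq : If q ≤ ∑ q ∈ R, If q := Finset.single_le_sum (fun _ _ => Nat.zero_le _) hqR'
  exact hIf q hqR' i (by omega) hq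

theorem SgW.CL_all [DecidableEq ι] (hE : S_ENG2) (hP : S_PERM) (hMo : S_MONO) (hPh : S_PHASE)
    (hSh : S_SHAPE) (hU : S_U2) (hCE : S_CE) (hMaj : S_STMAJ) (hSm : S_WSMALL) (hD1 : S_DIL1)
    (hD2 : S_DIL2) (hFam : S_FAM2) (ha : ∀ i, a i ≠ 0) (m : ℕ) (hm : 0 < m) : S.CL m := by
  obtain ⟨n, rfl⟩ : ∃ n, m = n + 1 := ⟨m - 1, by omega⟩
  induction n with
  | zero => exact S.CL_one hCE hMaj hSm ha
  | succ n ih =>
    rcases Nat.eq_zero_or_pos n with h | h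
    · subst h
      exact S.CL_two hP hMo hU hCE hMaj hSm ha
    · exact S.CL_succ hE hP hMo hPh hSh hU hCE hD1 hD2 hFam ha n h (ih (by omega))

end

/-- The structure theorem: the correlations are close in mean square to their averages over the
cells. -/
def S_STRW : Prop :=
  ∀ (R k : ℕ) (a b : Fin k → ℤ), 0 < k → (∀ i, a i ≠ 0) → ∀ ε : ℝ, 0 < ε →
    ∃ i₀ K : ℕ, ∀ D x : ℕ, K ≤ D → D ≤ R * x →
      ∀ (F G : Fin k → ℤ → ℂ) (g : Fin k → ℕ → ℂ), MG F g G 0 K →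
      avr D (fun d => ‖cc a b F x d - St i₀.factorial D (cc a b F x) d‖ ^ 2) ≤ ε

theorem strW (hE : S_ENG2) (hP : S_PERM) (hMo : S_MONO) (hPh : S_PHASE)
    (hSh : S_SHAPE) (hU : S_U2) (hCE : S_CE) (hMaj : S_STMAJ) (hSm : S_WSMALL) (hD1 : S_DIL1)
    (hD2 : S_DIL2) (hFam : S_FAM2) : S_STRW := by
  classical
  intro R k a b hk ha ε hε
  by_contra hcon
  push Not at hcon
  choose D x hD hDx F G g hF hbig using fun n => hcon n n
  set U : Ultrafilter ℕ := Filter.hyperfilter ℕ with hUdef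
  have hat : ∀ N, ∀ᶠ j in (U : Filter ℕ), N ≤ j := fun N =>
    Nat.hyperfilter_le_atTop (eventually_ge_atTop N)
  set S : SgW (Fin k) a b U := ⟨D, x, F, g, G, fun N => by
      filter_upwards [hat N] with j hj
      exact hj.trans (hD j), fun N => by
      filter_upwards [hat (N * (R + 1))] with j hj
      by_contra hc
      push Not at hc
      have h1 := hD j
      have h2 := hDx j
      have h3 : R * x j ≤ R * N := Nat.mul_le_mul_left _ hc.le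
      have h4 : N * (R + 1) = R * N + N := by ring
      omega, fun j => (hF j).1, fun T => by
      filter_upwards [hat T] with j hj
      exact MG_mono (hF j) hj⟩ with hS
  obtain ⟨s, C, hs, hgvn⟩ := gvn_mainR R k a b hk ha
  set δ : ℝ := min ((ε / 2) ^ 2 ^ k / 2) 1 with hδ
  have hδ0 : 0 < δ := lt_min (by positivity) one_pos
  obtain ⟨η₀, hη₀, hCL⟩ := S.CL_all hE hP hMo hPh hSh hU hCE hMaj hSm hD1 hD2 hFam ha k hk s hs δ
    hδ0 (min_le_right _ _)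
  set η₁ : ℝ := min η₀ (δ / (|C| + 1)) with hη₁
  have hη₁0 : 0 < η₁ := lt_min hη₀ (by positivity)
  obtain ⟨i₀, hi₀⟩ := hCL η₁ hη₁0 (min_le_left _ _)
  refine hi₀ i₀ le_rfl ?_
  filter_upwards [hat i₀, S.hD 1, S.large (2 / η₁)] with j hj hj1 hj2
  have hSD : S.D j = D j := rfl
  have hSc : S.c j = cc a b (F j) (x j) := rfl
  have hSw : S.w i₀ j = wf i₀.factorial (D j) (cc a b (F j) (x j)) := rfl
  rw [hSD] at hj1 hj2
  rw [hSD, hSw]
  set c := cc a b (F j) (x j) with hc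
  have hFj := (hF j).1
  have hcn : ∀ m, ‖c m‖ ≤ 1 := cc_norm a b (F j) hFj (x j)
  have hD0 : (0 : ℝ) < D j := by exact_mod_cast (by omega : 0 < D j)
  have hD2' : 2 ≤ η₁ * D j := by
    rw [div_le_iff₀ hη₁0] at hj2
    linarith
  obtain ⟨hH1, hH2, hH3⟩ := floor_half η₁ (D j) hD2'
  set H := ⌊η₁ * D j⌋₊ with hH
  obtain ⟨hce1, hce2, hce3, hce4, hce5⟩ := hCE i₀.factorial (D j) c (Nat.factorial_pos _)
    (by omega) hcn
  have hres : ε < avr (D j) (fun d => ‖c d - St i₀.factorial (D j) c d‖ ^ 2) :=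
    lt_of_lt_of_le (hbig j) (hce5 j.factorial (Nat.factorial_pos _)
      (Nat.factorial_dvd_factorial hj)).2
  have h1 := hgvn (F j) hFj (fun d => (starRingEnd ℂ) (wf i₀.factorial (D j) c d))
    (fun m => by rw [RCLike.norm_conj]; exact hce2 m) (D j) (x j) H (by omega) (hDx j) hH3
  rw [NN_conj, ← hc, hce4, Complex.norm_real, Real.norm_eq_abs] at h1
  have h3 : (ε / 2) ^ 2 ^ k
      ≤ |avr (D j) (fun d => ‖c d - St i₀.factorial (D j) c d‖ ^ 2) / 2| ^ 2 ^ k := by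
    refine pow_le_pow_left₀ (by positivity) ?_ _
    refine le_trans ?_ (le_abs_self _)
    linarith
  have h4 : C * H / D j ≤ δ := by
    calc C * H / D j ≤ |C| * H / D j := by gcongr; exact le_abs_self C
      _ ≤ |C| * (η₁ * D j) / D j := by gcongr
      _ = |C| * η₁ := by field_simp
      _ ≤ |C| * (δ / (|C| + 1)) := by gcongr; exact min_le_right _ _
      _ = δ * (|C| / (|C| + 1)) := by ring
      _ ≤ δ * 1 := by
          gcongr
          rw [div_le_one (by positivity)]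
          linarith
      _ = δ := mul_one _
  have h5 : δ ≤ (ε / 2) ^ 2 ^ k / 2 := min_le_left _ _
  linarith


theorem strWA : S_STRW :=
  strW eng2A N776.A.perm N776.A.mono N776.A.phase Pool.Agent.N362.A.Shape.shape N781.A.U2.xx
    N319.S.ce N319.S.stmaj N319.S.wsmall dil1 dil2 t_FAM2

/-- the sizes -/
lemma size' (K0 R D x : ℕ) (hD' : K0 * (R + 1) ≤ D) (hDx : D ≤ R * x) (_ : 0 < K0) :
    K0 ≤ D ∧ K0 ≤ x := by
  refine ⟨le_trans (Nat.le_mul_of_pos_right _ (Nat.succ_pos R)) hD', ?_⟩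
  by_contra hcon
  push Not at hcon
  have h1 : K0 * (R + 1) ≤ R * x := hD'.trans hDx
  have h2 : R * x ≤ R * K0 := Nat.mul_le_mul_left R hcon.le
  have h3 : K0 * (R + 1) = R * K0 + K0 := by ring
  omega

/-- The diagonal shift along almost all dilates, for functions which are equivariant with respect to
the primes up to `K` only. -/
theorem shift_msW (R k : ℕ) (a b : Fin k → ℤ) (hk : 0 < k) (ha : ∀ i, a i ≠ 0) (ε : ℝ)
    (hε : 0 < ε) : ∃ K : ℕ, ∀ D x : ℕ, K ≤ D → D ≤ R * x →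
      ∀ (F G H : Fin k → ℤ → ℂ) (g g' : Fin k → ℕ → ℂ), MG F g G 0 K →
      MG G g' H 0 K → (∀ p, p.Prime → p ≤ K → ∏ i, g i p = 1) →
      (∀ p, p.Prime → p ≤ K → ∏ i, g' i p = 1) →
      avr D (fun d => ‖cc a b G x d - cc a b F x d‖ ^ 2) ≤ ε := by
  obtain ⟨ε₁, hε₁, hcore⟩ := shift_core Pool.Agent.N9.S.Pair.pair Pool.Agent.N97.CH.idx cmp2
    dil1 dil2 (Fin k) a b ha ε hε
  obtain ⟨i₀, K1, hK1⟩ := strWA R k a b hk ha ε₁ hε₁
  obtain ⟨T, K2, hK2⟩ := hcore i₀.factorial (Nat.factorial_pos _)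
  refine ⟨(K1 + K2 + T + 1) * (R + 1), fun D x hD' hDx F G H g g' hFG hGH hg hg' => ?_⟩
  obtain ⟨hD, hx⟩ := size' (K1 + K2 + T + 1) R D x hD' hDx (by omega)
  have hbig : K1 + K2 + T + 1 ≤ (K1 + K2 + T + 1) * (R + 1) := Nat.le_mul_of_pos_right _ (Nat.succ_pos R)
  exact hK2 D x (by omega) (by omega) F G H g g' (MG_mono hFG (by omega))
    (MG_mono hGH (by omega)) (fun p hp hpT => hg p hp (by omega)) (fun p hp hpT => hg' p hp (by omega))
    (hK1 D x (by omega) hDx F G g (MG_mono hFG (by omega)))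

end Pool.Agent.Run7.h348.EF
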