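import Pool.Agent.Run7.h348.EF.Eng
import Pool.Agent.Run7.h348.EF.Str
import Pool.Agent.N781.E.Om
import Pool.Agent.N781.E.Fin

/-! The diagonal shift at fixed shifts for functions which are equivariant with respect to the small
primes only. -/

set_option autoImplicit false

namespace Pool.Agent.Run7.h348.EF

open Finset Pool.Agent.TH575.CW Pool.Agent.N781.A Pool.Agent.N781.OM Pool.Agent.N781.E

lemma rel_MG {k : ℕ} {F G : Fin k → ℤ → ℂ} {g : Fin k → ℕ → ℂ} {W V : ℕ} (h : MG F g G 0 V)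
    (hg : ∀ p : ℕ, p.Prime → p ≤ V → ∏ i, g i p = 1) (hW : W ≤ V) : RelW W F G (fun _ => 1) := by
  intro p hp hpW
  refine ⟨by simp, fun m hm => ?_⟩
  have h1 := h.2.2.2
  calc ∏ j, F j ((p : ℤ) * m j) = ∏ j, (g j p * G j (m j)) :=
        prod_congr rfl fun j _ => h1 j p hp (Nat.zero_le _) (hpW.trans hW) (m j) (hm j)
    _ = (∏ j, g j p) * ∏ j, G j (m j) := prod_mul_distrib
    _ = _ := by rw [hg p hp (hpW.trans hW)]

theorem om_fixedW (k : ℕ) (a : Fin k → ℕ) (b : Fin k → ℤ) (hk : 0 < k) (ha : ∀ j, 1 ≤ a j) (ε : ℝ)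
    (hε : 0 < ε) : ∃ C : ℝ, ∀ J : ℕ, ∃ W : ℕ, ∀ N : ℕ, W ≤ N →
      ∀ (A0 A1 A2 : Fin k → ℤ → ℂ) (g g' : Fin k → ℕ → ℂ), MG A0 g A1 0 W → MG A1 g' A2 0 W →
        (∀ p : ℕ, p.Prime → p ≤ W → ∏ i, g i p = 1) →
        (∀ p : ℕ, p.Prime → p ≤ W → ∏ i, g' i p = 1) →
        ∑ i ∈ (Icc 1 J).filter (fun i => ε * ((N : ℝ) / 2 ^ i) <
          ‖SS a b A1 (N / 2 ^ i) - SS a b A2 (N / 2 ^ i)‖), 1 / (i : ℝ) ≤ C := by
  classical
  obtain ⟨ε1, C, δ, i1, hε1, hC, hδ, hδ1, hi1, heng⟩ := engW k a b ha ε hε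
  obtain ⟨ε2, K1, hε2, hpr⟩ := pr_av k a b hk ha ε1 hε1
  obtain ⟨K2, hms⟩ := shift_msW 1 k (fun j => (a j : ℤ)) b hk (fun j => by have := ha j; omega) ε2 hε2
  obtain ⟨i2, hi2⟩ := pnt_low δ hδ hδ1
  set i' := i1 + K1 + K2 + i2 with hi'
  refine ⟨C + i' + i', fun J => ?_⟩
  obtain ⟨y0, hy0⟩ := heng i' (by omega) J
  refine ⟨y0 + 2 ^ (J + 1) + K2, fun N hN A0 A1 A2 g g' h01 h12 hg hg' => ?_⟩
  have hJ0 : 0 < 2 ^ (J + 1) := by positivity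
  have hN0 : y0 ≤ N := by omega
  have hNJ : 2 ^ (J + 1) ≤ N := by omega
  have hmain := hy0 N hN0 A0 A1 A1 A2 (fun _ => 1) h01.1 h01.2.1 h01.2.1 h12.2.1
    (rel_MG h01 hg (by omega)) (rel_MG h12 hg' (by omega)) (by
      intro i hi
      rw [mem_Icc] at hi
      have hlt : i < 2 ^ i := Nat.lt_two_pow_self
      have h2J : 2 ^ (i + 1) ≤ 2 ^ (J + 1) := Nat.pow_le_pow_right (by norm_num) (by omega)
      refine hpr i N (by omega) (h2J.trans hNJ) A0 A1 h01.1 h01.2.1 ?_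
      have h3 := hms (2 ^ (i + 1)) N (by rw [pow_succ]; omega) (by rw [one_mul]; exact h2J.trans hNJ)
        A0 A1 A2 g g' (MG_mono h01 (by omega)) (MG_mono h12 (by omega))
        (fun p hp hpK => hg p hp (by omega)) (fun p hp hpK => hg' p hp (by omega))
      simp only [norm_sub_rev] at h3 ⊢
      exact h3)
  have hsub : (Icc 1 J).filter (fun i => ε * ((N : ℝ) / 2 ^ i) <
      ‖SS a b A1 (N / 2 ^ i) - SS a b A2 (N / 2 ^ i)‖) ⊆ Icc 1 i' ∪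
      (Icc 1 J).filter (fun i => ε * ((N : ℝ) / 2 ^ i) <
      ‖SS a b A1 (N / 2 ^ i) - SS a b A2 (N / 2 ^ i)‖ ∧
        δ / 4 * 2 ^ i ≤ WT δ (fun _ => 1) i) := by
    intro i hi
    rw [mem_filter, mem_Icc] at hi
    rw [mem_union, mem_filter, mem_Icc, mem_Icc]
    by_cases h1 : i ≤ i'
    · exact Or.inl ⟨hi.1.1, h1⟩
    · refine Or.inr ⟨hi.1, hi.2, ?_⟩
      have h2 := hi2 i (by omega)
      have h3 : WT δ (fun _ => 1) i = ∑ p ∈ PL δ i, Real.log p := by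
        unfold WT
        apply sum_congr rfl
        intro p hp
        simp only [norm_one, mul_one]
      rw [h3]
      refine le_trans ?_ h2
      have : (0 : ℝ) < δ * 2 ^ i := by positivity
      linarith
  have hnn : ∀ i : ℕ, (0 : ℝ) ≤ 1 / (i : ℝ) := fun i => by positivity
  refine (sum_le_sum_of_subset_of_nonneg hsub fun i _ _ => hnn i).trans ?_
  have h5 := sum_union_inter (s₁ := Icc 1 i') (s₂ := (Icc 1 J).filter (fun i => ε * ((N : ℝ) / 2 ^ i) <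
      ‖SS a b A1 (N / 2 ^ i) - SS a b A2 (N / 2 ^ i)‖ ∧
        δ / 4 * 2 ^ i ≤ WT δ (fun _ => 1) i)) (f := fun i : ℕ => 1 / (i : ℝ))
  have h6 : 0 ≤ ∑ i ∈ Icc 1 i' ∩ (Icc 1 J).filter (fun i => ε * ((N : ℝ) / 2 ^ i) <
      ‖SS a b A1 (N / 2 ^ i) - SS a b A2 (N / 2 ^ i)‖ ∧
        δ / 4 * 2 ^ i ≤ WT δ (fun _ => 1) i), 1 / (i : ℝ) := sum_nonneg fun i _ => hnn i
  have h8 : ∑ i ∈ Icc 1 i', 1 / (i : ℝ) ≤ i' := by
    calc ∑ i ∈ Icc 1 i', 1 / (i : ℝ) ≤ ∑ i ∈ Icc 1 i', (1 : ℝ) := by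
          apply sum_le_sum
          intro i hi
          rw [mem_Icc] at hi
          rw [div_le_one (by exact_mod_cast hi.1)]
          exact_mod_cast hi.1
      _ = i' := by simp
  linarith

/-- The diagonal shift at all but few scales, with whole dyadic intervals. -/
theorem om_excW (k : ℕ) (a : Fin k → ℕ) (b : Fin k → ℤ) (hk : 0 < k) (ha : ∀ j, 1 ≤ a j) (ε : ℝ)
    (hε : 0 < ε) : ∃ C : ℝ, ∀ J : ℕ, ∃ W : ℕ, ∀ N : ℕ, W ≤ N →
      ∀ (A0 A1 A2 : Fin k → ℤ → ℂ) (g g' : Fin k → ℕ → ℂ), MG A0 g A1 0 W → MG A1 g' A2 0 W →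
        (∀ p : ℕ, p.Prime → p ≤ W → ∏ i, g i p = 1) →
        (∀ p : ℕ, p.Prime → p ≤ W → ∏ i, g' i p = 1) →
        ∑ i ∈ exc (fun y => ‖SS a b A1 y - SS a b A2 y‖) ε J N, 1 / (i : ℝ) ≤ C := by
  obtain ⟨C, hC⟩ := om_fixedW k a b hk ha (ε / 8) (by positivity)
  obtain ⟨T, hT⟩ := sup_few 2 ε (by norm_num) hε
  refine ⟨T * max C 0, fun J => ?_⟩
  obtain ⟨W, hW⟩ := hC J
  obtain ⟨N₁, hN₁⟩ := hT J W
  refine ⟨W + N₁, fun N hN A0 A1 A2 g g' h01 h12 hg hg' => ?_⟩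
  refine hN₁ _ (slow2 a b h01.2.1 h12.2.1) (max C 0) (le_max_right _ _)
    (fun N' hN' => ?_) N (by omega)
  exact (hW N' hN' A0 A1 A2 g g' (MG_mono h01 (by omega)) (MG_mono h12 (by omega))
    (fun p hp hpK => hg p hp (by omega)) (fun p hp hpK => hg' p hp (by omega))).trans (le_max_left _ _)

end Pool.Agent.Run7.h348.EF
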